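import Pool.Agent.Work.MP_f1799f_co.LP.CA.Main
import Pool.Agent.Work.MP_f1799f_co.LP.CD.Main
import Pool.Agent.Work.MP_f1799f_co.LP.CE.Main
/-! The three certificate inequalities for the range from 6/5 to 17/5. -/
namespace Pool.Agent.Work.MP_f1799f_co.LP

theorem certA' : CertStmt mA 34944790 := CA.cert
theorem certD : CertStmt mD 19209200 := CD.cert
theorem certE : CertStmt mE 32602000 := CE.cert

end Pool.Agent.Work.MP_f1799f_co.LP
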