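import Pool.Agent.Work.MP_f1799f_co.LP.Constr
/-! From the finite upper bound and the construction to the limit.

Plan. The set of values is nonempty (the empty family, or `con`) and bounded above by `c n^(p+2) / 2`
(`pair_sum` and `h`), `c = (1 + 2^(p+1)) / 3^(p+1)`. So for `n >= 3` the quotient lies between
`n ((m-1) m^p + 2m (2m-1)^p) / (n (n-1) n^p)`, `m = n / 3`, and `c n / (n-1)`; `(m-1)/(n-1) -> 1/3`, `m/n -> 1/3`,
`(2m-1)/n -> 2/3`, continuity of `t -> t^p`, and `(1/3)^(p+1) + (2/3)^(p+1) = c`. Squeeze. -/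
namespace Pool.Agent.Work.MP_f1799f_co.LP
open Finset Filter

theorem Lim_third : Tendsto (fun n : ℕ => ((n / 3 : ℕ) : ℝ) / n) atTop (nhds (1 / 3)) := by
  have h1 : Tendsto (fun n : ℕ => 1 / 3 - (n : ℝ)⁻¹) atTop (nhds (1 / 3)) := by
    simpa only [sub_zero] using (tendsto_inv_atTop_nhds_zero_nat (𝕜 := ℝ)).const_sub (1 / 3)
  refine tendsto_of_tendsto_of_tendsto_of_le_of_le' h1 tendsto_const_nhds ?_ ?_
  · filter_upwards [eventually_gt_atTop 0] with n hn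
    have h0 : (0 : ℝ) < n := by exact_mod_cast hn
    have h2 : (n : ℝ) ≤ 3 * ((n / 3 : ℕ) : ℝ) + 3 := by exact_mod_cast (by omega : n ≤ 3 * (n / 3) + 3)
    rw [le_div_iff₀ h0, sub_mul, inv_mul_cancel₀ h0.ne']
    linarith
  · filter_upwards [eventually_gt_atTop 0] with n hn
    have h0 : (0 : ℝ) < n := by exact_mod_cast hn
    have h2 : 3 * ((n / 3 : ℕ) : ℝ) ≤ n := by exact_mod_cast (by omega : 3 * (n / 3) ≤ n)
    rw [div_le_iff₀ h0]
    linarith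

theorem Lim_low (p : ℝ) (hp : 0 < p) : Tendsto (fun n : ℕ =>
    ((((n / 3 : ℕ) : ℝ) / n - (n : ℝ)⁻¹) * (((n / 3 : ℕ) : ℝ) / n) ^ p +
      2 * (((n / 3 : ℕ) : ℝ) / n) * (2 * (((n / 3 : ℕ) : ℝ) / n) - (n : ℝ)⁻¹) ^ p) / (1 - (n : ℝ)⁻¹))
    atTop (nhds ((1 + 2 ^ (p + 1)) / 3 ^ (p + 1))) := by
  have h0 := tendsto_inv_atTop_nhds_zero_nat (𝕜 := ℝ)
  have h1 := (((Lim_third.sub h0).mul (Lim_third.rpow_const (Or.inr hp.le))).add
    ((Lim_third.const_mul 2).mul (((Lim_third.const_mul 2).sub h0).rpow_const (Or.inr hp.le)))).div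
    (h0.const_sub 1) (by norm_num)
  refine h1.trans (le_of_eq (congrArg nhds ?_))
  have h3 : (0 : ℝ) < 3 ^ p := by positivity
  rw [sub_zero, sub_zero, sub_zero, div_one, mul_one_div, Real.div_rpow (by norm_num) (by norm_num),
    Real.div_rpow (by norm_num) (by norm_num), Real.one_rpow, Real.rpow_add_one (by norm_num),
    Real.rpow_add_one (by norm_num)]
  field_simp



theorem limit_of_upper (p : ℝ) (hp : 0 < p)
    (h : ∀ (n : ℕ) (E : Finset (Finset (Fin n))), (∀ e ∈ E, e.card = 3) →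
      (∀ S : Finset (Fin n), S.card = 4 → ∃ T ⊆ S, T.card = 3 ∧ T ∉ E) →
      ∑ x : Fin n, ∑ y : Fin n,
        (((univ.filter fun z => ({x, y, z} : Finset (Fin n)) ∈ E).card : ℕ) : ℝ) ^ p ≤
        (1 + 2 ^ (p + 1)) / 3 ^ (p + 1) * (n : ℝ) ^ (p + 2)) :
    Tendsto (fun n : ℕ =>
      sSup {m : ℝ | ∃ E : Finset (Finset (Fin n)), (∀ e ∈ E, e.card = 3) ∧
          (∀ S : Finset (Fin n), S.card = 4 → ∃ T ⊆ S, T.card = 3 ∧ T ∉ E) ∧
          m = ∑ S ∈ (univ : Finset (Fin n)).powersetCard 2,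
            (((E.filter fun e => S ⊆ e).card : ℕ) : ℝ) ^ p} /
        (((n.choose 2 : ℕ) : ℝ) * (n : ℝ) ^ p))
      atTop (nhds ((1 + 2 ^ (p + 1)) / 3 ^ (p + 1))) := by
  have hU : Tendsto (fun n : ℕ => (1 + 2 ^ (p + 1)) / 3 ^ (p + 1) / (1 - (n : ℝ)⁻¹)) atTop
      (nhds ((1 + 2 ^ (p + 1)) / 3 ^ (p + 1))) := by
    refine ((tendsto_const_nhds (x := (1 + 2 ^ (p + 1)) / (3 : ℝ) ^ (p + 1))).div
      ((tendsto_inv_atTop_nhds_zero_nat (𝕜 := ℝ)).const_sub 1) (by norm_num)).trans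
      (le_of_eq (congrArg nhds ?_))
    rw [sub_zero, div_one]
  have hb : ∀ n : ℕ, ∀ m ∈ {m : ℝ | ∃ E : Finset (Finset (Fin n)), (∀ e ∈ E, e.card = 3) ∧
      (∀ S : Finset (Fin n), S.card = 4 → ∃ T ⊆ S, T.card = 3 ∧ T ∉ E) ∧
      m = ∑ S ∈ (univ : Finset (Fin n)).powersetCard 2,
        (((E.filter fun e => S ⊆ e).card : ℕ) : ℝ) ^ p},
      m ≤ (1 + 2 ^ (p + 1)) / 3 ^ (p + 1) * (n : ℝ) ^ (p + 2) / 2 := by
    rintro n _ ⟨E, h1, h2, rfl⟩
    linarith [pair_sum p hp n E h1, h n E h1 h2]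
  refine tendsto_of_tendsto_of_tendsto_of_le_of_le' (Lim_low p hp) hU ?_ ?_
  all_goals
    filter_upwards [eventually_ge_atTop 3] with n hn
    obtain ⟨E, h1, h2, h3⟩ := con p hp n hn
    have n3 : (3 : ℝ) ≤ n := by exact_mod_cast hn
    have n0 : (0 : ℝ) < n := by linarith
    have n1 : (0 : ℝ) < n - 1 := by linarith
    have np : (0 : ℝ) < (n : ℝ) ^ p := by positivity
    have hd : (0 : ℝ) < n * (n - 1) / 2 * (n : ℝ) ^ p := by positivity
    rw [Nat.cast_choose_two]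
  · have k1 : (1 : ℝ) ≤ ((n / 3 : ℕ) : ℝ) := by exact_mod_cast (by omega : 1 ≤ n / 3)
    have h4 := le_csSup ⟨_, hb n⟩ ⟨E, h1, h2, rfl⟩
    rw [← pair_sum p hp n E h1] at h3
    generalize ((n / 3 : ℕ) : ℝ) = k at k1 h3 ⊢
    refine le_trans (le_of_eq ?_) (div_le_div_of_nonneg_right
      ((div_le_iff₀' two_pos).2 h3 |>.trans h4) hd.le)
    rw [show 2 * (k / n) - (n : ℝ)⁻¹ = (2 * k - 1) / n by field_simp,
      Real.div_rpow (by linarith) n0.le, Real.div_rpow (by linarith) n0.le]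
    field_simp
  · refine (div_le_div_of_nonneg_right (csSup_le (by exact ⟨_, E, h1, h2, rfl⟩) (hb n)) hd.le).trans
      (le_of_eq ?_)
    rw [Real.rpow_add n0, Real.rpow_two]
    field_simp

end Pool.Agent.Work.MP_f1799f_co.LP
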