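import Pool.Agent.Work.MP_f1799f_co.LP.Herm
/-! The majorant lemma with six conditions for exponents between three and four. -/
namespace Pool.Agent.Work.MP_f1799f_co.LP

theorem herm6b (p q0 q1 q2 q3 q4 q5 : ℝ) (h1 : 3 ≤ p) (h2 : p ≤ 4)
    (a0 : q0 + q1 * (1 / 3) + q2 * (1 / 3) ^ 2 + q3 * (1 / 3) ^ 3 + q4 * (1 / 3) ^ 4 +
      q5 * (1 / 3) ^ 5 = (1 / 3 : ℝ) ^ p)
    (a1 : q1 + 2 * q2 * (1 / 3) + 3 * q3 * (1 / 3) ^ 2 + 4 * q4 * (1 / 3) ^ 3 +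
      5 * q5 * (1 / 3) ^ 4 = 3 * p * (1 / 3 : ℝ) ^ p)
    (b0 : q0 + q1 * (2 / 3) + q2 * (2 / 3) ^ 2 + q3 * (2 / 3) ^ 3 + q4 * (2 / 3) ^ 4 +
      q5 * (2 / 3) ^ 5 = (2 / 3 : ℝ) ^ p)
    (b1 : q1 + 2 * q2 * (2 / 3) + 3 * q3 * (2 / 3) ^ 2 + 4 * q4 * (2 / 3) ^ 3 +
      5 * q5 * (2 / 3) ^ 4 = 3 / 2 * p * (2 / 3 : ℝ) ^ p)
    (e0 : 0 ≤ q0) (e1 : 1 ≤ q0 + q1 + q2 + q3 + q4 + q5) (x : ℝ) (x0 : 0 ≤ x) (x1 : x ≤ 1) :
    x ^ p ≤ q0 + q1 * x + q2 * x ^ 2 + q3 * x ^ 3 + q4 * x ^ 4 + q5 * x ^ 5 := by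
  have hp : 0 < p := by linarith
  by_cases k0 : x = 0
  · rw [k0, Real.zero_rpow hp.ne']
    simpa using e0
  by_cases k1 : x = 1
  · rw [k1, Real.one_rpow]
    simpa using e1
  by_cases ka : x = 1 / 3
  · rw [ka, a0]
  by_cases kb : x = 2 / 3
  · rw [kb, b0]
  obtain ⟨c, hc⟩ : ∃ c, q0 = 4 / 81 * c := ⟨81 / 4 * q0, by ring⟩
  obtain ⟨d, hd⟩ : ∃ d, q0 + q1 + q2 + q3 + q4 + q5 - 1 = 4 / 81 * (c + d) :=
    ⟨81 / 4 * (q0 + q1 + q2 + q3 + q4 + q5 - 1) - c, by ring⟩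
  have hw : 0 < ((x - 1 / 3) * (x - 2 / 3)) ^ 2 :=
    sq_pos_of_ne_zero (mul_ne_zero (sub_ne_zero.2 ka) (sub_ne_zero.2 kb))
  have hx : 0 < x * (1 - x) := mul_pos (x0.lt_of_ne' k0) (sub_pos.2 (x1.lt_of_ne k1))
  obtain ⟨K, hK⟩ : ∃ K, q0 + q1 * x + q2 * x ^ 2 + q3 * x ^ 3 + q4 * x ^ 4 + q5 * x ^ 5 - x ^ p -
      (c + d * x) * ((x - 1 / 3) * (x - 2 / 3)) ^ 2 =
        K * (x * (1 - x) * ((x - 1 / 3) * (x - 2 / 3)) ^ 2) :=
    ⟨_, (div_mul_cancel₀ _ (mul_pos hx hw).ne').symm⟩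
  refine Exists.elim ((Herm_six hp (q0 - 4 / 81 * c) (q1 + 4 / 9 * c - 4 / 81 * d - 4 / 81 * K)
    (q2 - 13 / 9 * c + 4 / 9 * d + 40 / 81 * K) (q3 + 2 * c - 13 / 9 * d - 17 / 9 * K)
    (q4 - c + 2 * d + 31 / 9 * K) (q5 - d - 3 * K) K {x, 0, 1, 1 / 3, 2 / 3} (fun y hy => ?_)
    (by simp) (by simp) (by linear_combination a1) (by linear_combination b1)).1 ?_)
    fun u ⟨u0, hu⟩ => ?_
  · simp only [Finset.mem_insert, Finset.mem_singleton] at hy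
    rcases hy with rfl | rfl | rfl | rfl | rfl
    · exact ⟨x0, by linear_combination hK⟩
    · exact ⟨le_rfl, by rw [Real.zero_rpow hp.ne']; linear_combination hc⟩
    · exact ⟨zero_le_one, by rw [Real.one_rpow]; linear_combination hd⟩
    · exact ⟨by norm_num, by linear_combination a0⟩
    · exact ⟨by norm_num, by linear_combination b0⟩
  · rw [Finset.card_insert_of_notMem (by simpa only [Finset.mem_insert, Finset.mem_singleton,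
      not_or] using ⟨k0, k1, ka, kb⟩), Finset.card_insert_of_notMem (by norm_num),
      Finset.card_insert_of_notMem (by norm_num), Finset.card_pair (by norm_num)]
  · have s1 : 0 ≤ p * (p - 1) * ((p - 2) * (p - 3)) * ((p - 4) * (p - 5)) * u :=
      mul_nonneg (mul_nonneg (mul_nonneg (mul_nonneg hp.le (by linarith))
        (mul_nonneg (by linarith) (by linarith)))
        (mul_nonneg_of_nonpos_of_nonpos (by linarith) (by linarith))) u0.le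
    have s2 : 0 ≤ K * (x * (1 - x) * ((x - 1 / 3) * (x - 2 / 3)) ^ 2) :=
      mul_nonneg (by linarith) (mul_pos hx hw).le
    have s3 : 0 ≤ (c + d * x) * ((x - 1 / 3) * (x - 2 / 3)) ^ 2 :=
      mul_nonneg (by nlinarith) hw.le
    linarith

end Pool.Agent.Work.MP_f1799f_co.LP
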