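import Mathlib.Algebra.BigOperators.Ring.Finset
import Mathlib.Data.Fintype.Card
import Mathlib.Data.Nat.Choose.Basic
import Mathlib.Algebra.Order.Ring.Int
/-! The shape of one certificate inequality: a degree five polynomial in the codegree. -/
namespace Pool.Agent.Work.MP_f1799f_co.LP
open Finset

/-- Bernstein form with integer coefficients `m 0, ..., m 5`, homogeneous of degree five. -/
def bern (m : ℕ → ℤ) (D n : ℤ) : ℤ :=
  ∑ t ∈ range 6, (Nat.choose 5 t : ℤ) * D ^ t * (n - D) ^ (5 - t) * m t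

/-- The sum of `bern m` over ordered pairs is at most `T / 729 * n ^ 7`. -/
def CertStmt (m : ℕ → ℤ) (T : ℤ) : Prop :=
  ∀ (n : ℕ) (E : Finset (Finset (Fin n))), (∀ e ∈ E, e.card = 3) →
    (∀ S : Finset (Fin n), S.card = 4 → ∃ U ⊆ S, U.card = 3 ∧ U ∉ E) →
    729 * ∑ x : Fin n, ∑ y : Fin n,
      bern m ((univ.filter fun z => ({x, y, z} : Finset (Fin n)) ∈ E).card : ℕ) n ≤
      T * (n : ℤ) ^ 7

def mA (t : ℕ) : ℤ := ([0, 10700, 31813, 50472, 73231, 96016].getD t 0 : ℕ)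
def mB (t : ℕ) : ℤ := ([27200, 0, 22700, 40500, 72500, 101800].getD t 0 : ℕ)
def mC (t : ℕ) : ℤ := ([800, 700, 0, 12200, 51400, 131800].getD t 0 : ℕ)
def mD (t : ℕ) : ℤ := ([800, 800, 0, 7400, 47300, 147400].getD t 0 : ℕ)
def mE (t : ℕ) : ℤ := ([38000, 0, 21000, 42000, 76000, 102000].getD t 0 : ℕ)

end Pool.Agent.Work.MP_f1799f_co.LP
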