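import Pool.Agent.Work.MP_f1799f_co.LP.Ineq
import Pool.Agent.Work.MP_f1799f_co.LP.Herm2
import Pool.Agent.Work.MP_f1799f_co.LP.Iface
/-! From the three certificates to the bound on the sum of powers of the codegrees. -/
namespace Pool.Agent.Work.MP_f1799f_co.LP
open Finset

theorem signs {p : ℝ} (h1 : 6 / 5 ≤ p) (h2 : p ≤ 17 / 5) :
    0 ≤ bA p (2 ^ p) ∧ 0 ≤ bE p (2 ^ p) ∧ 0 ≤ bD p (2 ^ p) ∧
      ((p ≤ 2 ∨ 3 ≤ p) ∧ 0 ≤ q0 p (2 ^ p) ∧ 3 ^ p ≤ qs p (2 ^ p) ∨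
        2 ≤ p ∧ p ≤ 3 ∧ 0 ≤ r2 p (2 ^ p) ∧ 0 ≤ r3 p (2 ^ p)) := by
  have l2 := Real.log_two_gt_d9
  have u2 := Real.log_two_lt_d9
  have l3 := Real.log_three_gt_d9
  have u3 := Real.log_three_lt_d9
  rcases le_total p 2 with c | c
  · obtain ⟨t, rfl⟩ : ∃ t, p = 2 + t := ⟨p - 2, by ring⟩
    have t0 : -4 / 5 ≤ t := by linarith
    have t1 : t ≤ 0 := by linarith
    obtain ⟨a, b⟩ := pow_box (c := 2) (x := 433217 / 625000 * t) (y := 6931471 / 10000000 * t)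
      (t := t) (by norm_num) (by nlinarith) (by nlinarith) (abs_le.2 ⟨by linarith, by linarith⟩)
      (abs_le.2 ⟨by linarith, by linarith⟩)
    obtain ⟨-, d⟩ := pow_box (c := 3) (x := 11 / 10 * t) (y := 5493061 / 5000000 * t)
      (t := t) (by norm_num) (by nlinarith) (by nlinarith) (abs_le.2 ⟨by linarith, by linarith⟩)
      (abs_le.2 ⟨by linarith, by linarith⟩)
    have e2 : (2 : ℝ) ^ (2 + t) = 4 * 2 ^ t := by rw [Real.rpow_add (by norm_num)]; norm_num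
    have e3 : (3 : ℝ) ^ (2 + t) = 9 * 3 ^ t := by rw [Real.rpow_add (by norm_num)]; norm_num
    have wl : 4 * (TT (433217 / 625000 * t) - 11 / 36288000) ≤ 2 ^ (2 + t) := by linarith
    have wu : 2 ^ (2 + t) ≤ 4 * (TT (6931471 / 10000000 * t) + 11 / 36288000) := by linarith
    exact ⟨r1_bA t0 t1 wl wu, r1_bE t0 t1 wl wu, r1_bD t0 t1 wl wu,
      Or.inl ⟨Or.inl c, r1_q0 t0 t1 wl wu, r1_qs t0 t1 wl wu (by linarith)⟩⟩
  rcases le_total p 3 with c' | c'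
  · obtain ⟨t, rfl⟩ : ∃ t, p = 2 + t := ⟨p - 2, by ring⟩
    have t0 : 0 ≤ t := by linarith
    have t1 : t ≤ 1 := by linarith
    obtain ⟨a, b⟩ := pow_box (c := 2) (x := 6931471 / 10000000 * t) (y := 433217 / 625000 * t)
      (t := t) (by norm_num) (by nlinarith) (by nlinarith) (abs_le.2 ⟨by linarith, by linarith⟩)
      (abs_le.2 ⟨by linarith, by linarith⟩)
    have e2 : (2 : ℝ) ^ (2 + t) = 4 * 2 ^ t := by rw [Real.rpow_add (by norm_num)]; norm_num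
    have wl : 4 * (TT (6931471 / 10000000 * t) - 11 / 36288000) ≤ 2 ^ (2 + t) := by linarith
    have wu : 2 ^ (2 + t) ≤ 4 * (TT (433217 / 625000 * t) + 11 / 36288000) := by linarith
    exact ⟨r2_bA t0 t1 wl wu, r2_bE t0 t1 wl wu, r2_bD t0 t1 wl wu,
      Or.inr ⟨c, c', r2_r2 t0 t1 wl wu, r2_r3 t0 t1 wl wu⟩⟩
  · obtain ⟨t, rfl⟩ : ∃ t, p = 3 + t := ⟨p - 3, by ring⟩
    have t0 : 0 ≤ t := by linarith
    have t1 : t ≤ 2 / 5 := by linarith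
    obtain ⟨a, b⟩ := pow_box (c := 2) (x := 6931471 / 10000000 * t) (y := 433217 / 625000 * t)
      (t := t) (by norm_num) (by nlinarith) (by nlinarith) (abs_le.2 ⟨by linarith, by linarith⟩)
      (abs_le.2 ⟨by linarith, by linarith⟩)
    obtain ⟨-, d⟩ := pow_box (c := 3) (x := t) (y := 10986123 / 10000000 * t)
      (t := t) (by norm_num) (by nlinarith) (by nlinarith) (abs_le.2 ⟨by linarith, by linarith⟩)
      (abs_le.2 ⟨by linarith, by linarith⟩)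
    have e2 : (2 : ℝ) ^ (3 + t) = 8 * 2 ^ t := by rw [Real.rpow_add (by norm_num)]; norm_num
    have e3 : (3 : ℝ) ^ (3 + t) = 27 * 3 ^ t := by rw [Real.rpow_add (by norm_num)]; norm_num
    have wl : 8 * (TT (6931471 / 10000000 * t) - 11 / 36288000) ≤ 2 ^ (3 + t) := by linarith
    have wu : 2 ^ (3 + t) ≤ 8 * (TT (433217 / 625000 * t) + 11 / 36288000) := by linarith
    exact ⟨r3_bA t0 t1 wl wu, r3_bE t0 t1 wl wu, r3_bD t0 t1 wl wu,
      Or.inl ⟨Or.inr c', r3_q0 t0 t1 wl wu, r3_qs t0 t1 wl wu (by linarith)⟩⟩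

noncomputable def phA (x : ℝ) : ℝ :=
  53500 * x + 104130 * x ^ 2 - 128670 * x ^ 3 + 97105 * x ^ 4 - 30049 * x ^ 5
noncomputable def phE (x : ℝ) : ℝ :=
  38000 - 190000 * x + 590000 * x ^ 2 - 590000 * x ^ 3 + 360000 * x ^ 4 - 106000 * x ^ 5
noncomputable def phD (x : ℝ) : ℝ :=
  800 - 8000 * x ^ 2 + 90000 * x ^ 3 + 76500 * x ^ 4 - 11900 * x ^ 5

theorem major {p : ℝ} (h1 : 6 / 5 ≤ p) (h2 : p ≤ 17 / 5) : ∃ a0 aA aE aD : ℝ,
    0 ≤ aA ∧ 0 ≤ aE ∧ 0 ≤ aD ∧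
      (∀ x : ℝ, 0 ≤ x → x ≤ 1 → x ^ p ≤ a0 + aA * phA x + aE * phE x + aD * phD x) ∧
      a0 + (aA * 34944790 + aE * 32602000 + aD * 19209200) / 729 =
        (1 + 2 ^ (p + 1)) / 3 ^ (p + 1) := by
  obtain ⟨sA, sE, sD, s⟩ := signs h1 h2
  have z0 : (0 : ℝ) < 3 ^ p := by positivity
  have e1 : (1 / 3 : ℝ) ^ p = (3 ^ p)⁻¹ := by
    rw [Real.div_rpow (by norm_num) (by norm_num), Real.one_rpow, one_div]
  have e2 : (2 / 3 : ℝ) ^ p = (3 ^ p)⁻¹ * 2 ^ p := by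
    rw [Real.div_rpow (by norm_num) (by norm_num), div_eq_inv_mul]
  have e3 : (1 + 2 ^ (p + 1)) / 3 ^ (p + 1) = ((3 : ℝ) ^ p)⁻¹ * (1 + 2 * 2 ^ p) / 3 := by
    rw [Real.rpow_add_one (by norm_num), Real.rpow_add_one (by norm_num)]
    field_simp
  have u0 : (0 : ℝ) < (3 ^ p)⁻¹ := inv_pos.2 z0
  have uz : ((3 : ℝ) ^ p)⁻¹ * 3 ^ p = 1 := inv_mul_cancel₀ z0.ne'
  rw [e3]
  generalize ((3 : ℝ) ^ p)⁻¹ = u at *
  generalize (3 : ℝ) ^ p = z at *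
  generalize (2 : ℝ) ^ p = w at *
  refine ⟨u * b0 p w, u * bA p w, u * bE p w, u * bD p w, mul_nonneg u0.le sA,
    mul_nonneg u0.le sE, mul_nonneg u0.le sD, fun x x0 x1 => ?_,
    by unfold b0 bA bE bD; ring⟩
  have key : ∀ q0 q1 q2 q3 q4 q5 : ℝ,
      q0 = u * (b0 p w + 38000 * bE p w + 800 * bD p w) →
      q1 = u * (53500 * bA p w - 190000 * bE p w) →
      q2 = u * (104130 * bA p w + 590000 * bE p w - 8000 * bD p w) →
      q3 = u * (-128670 * bA p w - 590000 * bE p w + 90000 * bD p w) →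
      q4 = u * (97105 * bA p w + 360000 * bE p w + 76500 * bD p w) →
      q5 = u * (-30049 * bA p w - 106000 * bE p w - 11900 * bD p w) →
      x ^ p ≤ q0 + q1 * x + q2 * x ^ 2 + q3 * x ^ 3 + q4 * x ^ 4 + q5 * x ^ 5 := by
    intro c0 c1 c2 c3 c4 c5 d0 d1 d2 d3 d4 d5
    have a0 : c0 + c1 * (1 / 3) + c2 * (1 / 3) ^ 2 + c3 * (1 / 3) ^ 3 + c4 * (1 / 3) ^ 4 +
        c5 * (1 / 3) ^ 5 = (1 / 3 : ℝ) ^ p := by
      rw [e1, d0, d1, d2, d3, d4, d5]; unfold b0 bA bE bD; ring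
    have a1 : c1 + 2 * c2 * (1 / 3) + 3 * c3 * (1 / 3) ^ 2 + 4 * c4 * (1 / 3) ^ 3 +
        5 * c5 * (1 / 3) ^ 4 = 3 * p * (1 / 3 : ℝ) ^ p := by
      rw [e1, d1, d2, d3, d4, d5]; unfold bA bE bD; ring
    have a2 : c0 + c1 * (2 / 3) + c2 * (2 / 3) ^ 2 + c3 * (2 / 3) ^ 3 + c4 * (2 / 3) ^ 4 +
        c5 * (2 / 3) ^ 5 = (2 / 3 : ℝ) ^ p := by
      rw [e2, d0, d1, d2, d3, d4, d5]; unfold b0 bA bE bD; ring
    have a3 : c1 + 2 * c2 * (2 / 3) + 3 * c3 * (2 / 3) ^ 2 + 4 * c4 * (2 / 3) ^ 3 +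
        5 * c5 * (2 / 3) ^ 4 = 3 / 2 * p * (2 / 3 : ℝ) ^ p := by
      rw [e2, d1, d2, d3, d4, d5]; unfold bA bE bD; ring
    rcases s with ⟨s1, s2, s3⟩ | ⟨s1, s2, s3, s4⟩
    · have f0 : 0 ≤ c0 := by
        have : c0 = u * q0 p w := by rw [d0]; unfold q0 b0 bE bD; ring
        rw [this]; exact mul_nonneg u0.le s2
      have f1 : 1 ≤ c0 + c1 + c2 + c3 + c4 + c5 := by
        have : c0 + c1 + c2 + c3 + c4 + c5 = u * qs p w := by
          rw [d0, d1, d2, d3, d4, d5]; unfold qs b0 bA bE bD; ring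
        rw [this, ← uz]; exact mul_le_mul_of_nonneg_left s3 u0.le
      rcases s1 with s1 | s1
      · exact herm6 p c0 c1 c2 c3 c4 c5 (by linarith) s1 a0 a1 a2 a3 f0 f1 x x0 x1
      · exact herm6b p c0 c1 c2 c3 c4 c5 s1 (by linarith) a0 a1 a2 a3 f0 f1 x x0 x1
    · refine herm4 p c0 c1 c2 c3 c4 c5 s1 s2 a0 a1 a2 a3 ?_ ?_ x x0 x1
      · have : c4 + 2 * c5 = u * r2 p w := by rw [d4, d5]; unfold r2 bA bE bD; ring
        rw [this]; exact mul_nonneg u0.le s3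
      · have : c4 + 3 * c5 = u * r3 p w := by rw [d4, d5]; unfold r3 bA bE bD; ring
        rw [this]; exact mul_nonneg u0.le s4
  refine (key _ _ _ _ _ _ rfl rfl rfl rfl rfl rfl).trans (le_of_eq ?_)
  unfold phA phE phD; ring

theorem cert_real {m : ℕ → ℤ} {T : ℤ} {ph : ℝ → ℝ} (h : CertStmt m T)
    (hp : ∀ (D n : ℕ), 0 < n → ((bern m D n : ℤ) : ℝ) = (n : ℝ) ^ 5 * ph ((D : ℝ) / n))
    {n : ℕ} (hn : 0 < n) (E : Finset (Finset (Fin n))) (e3 : ∀ e ∈ E, e.card = 3)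
    (e4 : ∀ S : Finset (Fin n), S.card = 4 → ∃ U ⊆ S, U.card = 3 ∧ U ∉ E) :
    ∑ x : Fin n, ∑ y : Fin n, ph
      ((((univ.filter fun z => ({x, y, z} : Finset (Fin n)) ∈ E).card : ℕ) : ℝ) / n) ≤
      (T : ℝ) / 729 * (n : ℝ) ^ 2 := by
  have h1 : ((729 * ∑ x : Fin n, ∑ y : Fin n,
      bern m ((univ.filter fun z => ({x, y, z} : Finset (Fin n)) ∈ E).card : ℕ) n : ℤ) : ℝ) ≤
      ((T * (n : ℤ) ^ 7 : ℤ) : ℝ) := Int.cast_le.2 (h n E e3 e4)
  rw [Int.cast_mul, Int.cast_sum] at h1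
  simp only [Int.cast_sum, hp _ n hn, ← mul_sum] at h1
  push_cast at h1
  have n0 : (0 : ℝ) < (n : ℝ) ^ 5 := by positivity
  refine le_of_mul_le_mul_left ?_ n0
  linarith

theorem upper_of_certs (hA : CertStmt mA 34944790) (hE : CertStmt mE 32602000)
    (hD : CertStmt mD 19209200) {p : ℝ} (h1 : 6 / 5 ≤ p) (h2 : p ≤ 17 / 5)
    (n : ℕ) (E : Finset (Finset (Fin n))) (e3 : ∀ e ∈ E, e.card = 3)
    (e4 : ∀ S : Finset (Fin n), S.card = 4 → ∃ U ⊆ S, U.card = 3 ∧ U ∉ E) :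
    ∑ x : Fin n, ∑ y : Fin n,
      (((univ.filter fun z => ({x, y, z} : Finset (Fin n)) ∈ E).card : ℕ) : ℝ) ^ p ≤
      (1 + 2 ^ (p + 1)) / 3 ^ (p + 1) * (n : ℝ) ^ (p + 2) := by
  rcases Nat.eq_zero_or_pos n with rfl | hn
  · simp only [univ_eq_empty, sum_empty]; positivity
  have n0 : (0 : ℝ) < n := Nat.cast_pos.2 hn
  obtain ⟨a0, aA, aE, aD, pA, pE, pD, hq, hT⟩ := major h1 h2
  have cA := cert_real (ph := phA) hA (fun D n hn => by
    have : (n : ℝ) ≠ 0 := by positivity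
    simp only [bern, mA, phA, sum_range_succ, sum_range_zero, Nat.choose]
    push_cast; norm_num; field_simp; ring) hn E e3 e4
  have cE := cert_real (ph := phE) hE (fun D n hn => by
    have : (n : ℝ) ≠ 0 := by positivity
    simp only [bern, mE, phE, sum_range_succ, sum_range_zero, Nat.choose]
    push_cast; norm_num; field_simp; ring) hn E e3 e4
  have cD := cert_real (ph := phD) hD (fun D n hn => by
    have : (n : ℝ) ≠ 0 := by positivity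
    simp only [bern, mD, phD, sum_range_succ, sum_range_zero, Nat.choose]
    push_cast; norm_num; field_simp; ring) hn E e3 e4
  have pt : ∀ D : ℕ, D ≤ n → (D : ℝ) ^ p ≤ (n : ℝ) ^ p * (a0 + aA * phA ((D : ℝ) / n) +
      aE * phE ((D : ℝ) / n) + aD * phD ((D : ℝ) / n)) := by
    intro D hD
    have := hq ((D : ℝ) / n) (div_nonneg (Nat.cast_nonneg D) n0.le) 
      ((div_le_one n0).2 (Nat.cast_le.2 hD))
    rw [Real.div_rpow (Nat.cast_nonneg D) n0.le, div_le_iff₀ (Real.rpow_pos_of_pos n0 p)] at this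
    linarith
  refine (sum_le_sum fun x _ => sum_le_sum fun y _ => pt _
    ((card_filter_le _ _).trans (by simp))).trans ?_
  simp only [← mul_sum, sum_add_distrib, sum_const, card_univ, Fintype.card_fin, nsmul_eq_mul]
  rw [← hT, Real.rpow_add n0, Real.rpow_two, mul_left_comm _ ((n : ℝ) ^ p)]
  refine mul_le_mul_of_nonneg_left ?_ (Real.rpow_pos_of_pos n0 p).le
  have := mul_le_mul_of_nonneg_left cA pA
  have := mul_le_mul_of_nonneg_left cE pE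
  have := mul_le_mul_of_nonneg_left cD pD
  push_cast at *
  linarith

end Pool.Agent.Work.MP_f1799f_co.LP
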