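import Mathlib
/-! Codegree sums over ordered and unordered pairs, and Turan's construction.

Plan. `pair_sum`: for `x = y` the count is `0` (the set `{x,x,z}` has at most two elements) and `0 ^ p = 0`; for
`x <> y` the map `z -> {x,y,z}` is a bijection from the `z` with `{x,y,z}` in `E` onto the `e` in `E` containing
`{x,y}`; every 2-set comes from exactly two ordered pairs.
`con`: colour `x : Fin n` by `x % 3` (or by its image in `ZMod 3`); `E` consists of the 3-sets `{x,y,z}` that have one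
vertex of each colour, or two vertices of colour `i` and one of colour `i+1`. A 4-set has two vertices of the same colour;
a case check on the colours gives a missing triple (it is easiest to define the edge relation on colours
`R i j k` symmetric and decidable, put `E = {e | card e = 3 and for all distinct x y z in e, R (c x) (c y) (c z)}` and
check by `decide` that for all colours `i j k l` one of the four `R` fails). Every colour class has at least `m = n / 3`
elements. If `x <> y` have the same colour `i`, every `z` of colour `i+1` counts (at least `m`); if the colours are `i` and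
`i+1`, every `z` of colour `i+2` and every `z` of colour `i` other than the vertex itself counts (at least `2m-1`). -/
namespace Pool.Agent.Work.MP_f1799f_co.LP
open Finset

theorem Constr_card {n : ℕ} {E : Finset (Finset (Fin n))} (h3 : ∀ e ∈ E, e.card = 3) {x y : Fin n}
    (h : x ≠ y) : (univ.filter fun z => ({x, y, z} : Finset (Fin n)) ∈ E).card =
      (E.filter fun e => ({x, y} : Finset (Fin n)) ⊆ e).card := by
  have key (z : Fin n) (hz : ({x, y, z} : Finset (Fin n)) ∈ E) : z ≠ x ∧ z ≠ y := by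
    have := h3 _ hz
    constructor <;> rintro rfl <;> simp [card_pair h, card_pair h.symm] at this
  refine card_bij (fun z _ => {x, y, z}) (fun z hz => mem_filter.2 ⟨(mem_filter.1 hz).2, ?_⟩)
    (fun z hz w _ e => ?_) fun e he => ?_
  · simp [insert_subset_iff]
  · have k := key z (mem_filter.1 hz).2
    have : z ∈ ({x, y, w} : Finset (Fin n)) := e ▸ by simp
    simpa [k.1, k.2] using this
  · obtain ⟨h1, h2⟩ := mem_filter.1 he
    obtain ⟨z, hz⟩ := card_eq_one.1 (show (e \ {x, y}).card = 1 by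
      rw [card_sdiff_of_subset h2, h3 e h1, card_pair h])
    have e1 : ({x, y, z} : Finset (Fin n)) = e := by
      rw [← union_sdiff_of_subset h2, hz]
      ext
      simp
    exact ⟨z, mem_filter.2 ⟨mem_univ _, e1 ▸ h1⟩, e1⟩

theorem pair_sum (p : ℝ) (hp : 0 < p) (n : ℕ) (E : Finset (Finset (Fin n)))
    (h3 : ∀ e ∈ E, e.card = 3) :
    2 * ∑ S ∈ (univ : Finset (Fin n)).powersetCard 2, (((E.filter fun e => S ⊆ e).card : ℕ) : ℝ) ^ p =
      ∑ x : Fin n, ∑ y : Fin n,
        (((univ.filter fun z => ({x, y, z} : Finset (Fin n)) ∈ E).card : ℕ) : ℝ) ^ p := by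
  have h0 (x : Fin n) : (univ.filter fun z => ({x, x, z} : Finset (Fin n)) ∈ E) = ∅ :=
    filter_eq_empty_iff.2 fun z _ hz => by
      have := h3 _ hz
      rw [insert_eq_of_mem (mem_insert_self _ _)] at this
      have := card_le_two (a := x) (b := z)
      omega
  rw [← sum_product', ← diag_union_offDiag, sum_union (disjoint_diag_offDiag _), sum_diag,
    sum_eq_zero (s := univ) fun x _ => by
      rw [h0, card_empty, Nat.cast_zero, Real.zero_rpow hp.ne'], zero_add,
    ← sum_fiberwise_of_maps_to (s := univ.offDiag) (t := powersetCard 2 univ)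
      (g := fun q : Fin n × Fin n => ({q.1, q.2} : Finset (Fin n)))
      fun q hq => mem_powersetCard.2 ⟨subset_univ _, card_pair (mem_offDiag.1 hq).2.2⟩, mul_sum]
  refine sum_congr rfl fun S hS => ?_
  have hc := (mem_powersetCard.1 hS).2
  have e : (univ.offDiag.filter fun q : Fin n × Fin n => ({q.1, q.2} : Finset (Fin n)) = S) =
      S.offDiag := by
    ext q
    simp only [mem_filter, mem_offDiag, mem_univ, true_and]
    refine ⟨fun h => ⟨h.2 ▸ by simp, h.2 ▸ by simp, h.1⟩, fun h => ⟨h.2.2, ?_⟩⟩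
    exact eq_of_subset_of_card_le (by simp [insert_subset_iff, h.1, h.2.1])
      (by rw [hc, card_pair h.2.2])
  rw [sum_congr rfl fun q hq => by
    rw [Constr_card h3 (mem_offDiag.1 (mem_filter.1 hq).1).2.2, (mem_filter.1 hq).2], sum_const, e,
    offDiag_card, hc]
  simp

def Constr_R (i j k : ZMod 3) : Prop := i + j + k = 1 ∨ (i + j + k = 0 ∧ i ≠ j)

instance (i j k : ZMod 3) : Decidable (Constr_R i j k) := by unfold Constr_R; infer_instance

def Constr_E (n : ℕ) : Finset (Finset (Fin n)) :=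
  univ.filter fun e => e.card = 3 ∧ (∑ x ∈ e, ((x : ℕ) : ZMod 3) = 1 ∨
    (∑ x ∈ e, ((x : ℕ) : ZMod 3) = 0 ∧ ∃ x ∈ e, ∃ y ∈ e, ((x : ℕ) : ZMod 3) ≠ ((y : ℕ) : ZMod 3)))

theorem Constr_mem {n : ℕ} {x y z : Fin n} (h1 : x ≠ y) (h2 : x ≠ z) (h3 : y ≠ z) :
    ({x, y, z} : Finset (Fin n)) ∈ Constr_E n ↔ Constr_R (x : ℕ) (y : ℕ) (z : ℕ) := by
  rw [Constr_E, mem_filter, sum_insert (by simp [h1, h2]), sum_pair h3,
    card_eq_three.2 ⟨x, y, z, h1, h2, h3, rfl⟩]
  simp only [mem_univ, true_and, mem_insert, mem_singleton, exists_eq_or_imp, exists_eq_left]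
  generalize ((x : ℕ) : ZMod 3) = i, ((y : ℕ) : ZMod 3) = j, ((z : ℕ) : ZMod 3) = k
  revert i j k
  decide

def Constr_C (n : ℕ) (i : ZMod 3) : Finset (Fin n) := univ.filter fun x => ((x : ℕ) : ZMod 3) = i

theorem Constr_in {n : ℕ} {i : ZMod 3} {x : Fin n} : x ∈ Constr_C n i ↔ ((x : ℕ) : ZMod 3) = i := by
  simp [Constr_C]

theorem Constr_cls (n : ℕ) (i : ZMod 3) : n / 3 ≤ (Constr_C n i).card := by
  have hi := ZMod.val_lt i
  have := card_le_card_of_injOn (s := (univ : Finset (Fin (n / 3)))) (t := Constr_C n i)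
    (fun t => ⟨3 * t + i.val, by have := t.2; omega⟩) (fun t _ => Constr_in.2 (by
      push_cast
      rw [ZMod.natCast_zmod_val, show (3 : ZMod 3) = 0 from rfl, zero_mul, zero_add]))
    fun t _ u _ h => Fin.ext (by have := congrArg Fin.val h; simp only at this; omega)
  simpa using this

theorem Constr_dis {n : ℕ} {i j : ZMod 3} (h : i ≠ j) : Disjoint (Constr_C n i) (Constr_C n j) :=
  disjoint_left.2 fun _ a b => h ((Constr_in.1 a).symm.trans (Constr_in.1 b))

theorem Constr_same {n : ℕ} {x y : Fin n} (h : x ≠ y)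
    (e : ((y : ℕ) : ZMod 3) = ((x : ℕ) : ZMod 3)) :
    n / 3 ≤ (univ.filter fun z => ({x, y, z} : Finset (Fin n)) ∈ Constr_E n).card := by
  have k : ∀ i : ZMod 3, i ≠ i + 1 ∧ Constr_R i i (i + 1) := by decide
  refine (Constr_cls n ((x : ℕ) + 1)).trans (card_le_card fun z hz => mem_filter.2 ⟨mem_univ _, ?_⟩)
  have hz := Constr_in.1 hz
  rw [Constr_mem h (by rintro rfl; exact (k _).1 hz) (by rintro rfl; exact (k _).1 (e ▸ hz)), e, hz]
  exact (k _).2

theorem Constr_next {n : ℕ} {x y : Fin n} (e : ((y : ℕ) : ZMod 3) = ((x : ℕ) : ZMod 3) + 1) :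
    2 * (n / 3) ≤ (univ.filter fun z => ({x, y, z} : Finset (Fin n)) ∈ Constr_E n).card + 1 := by
  have k : ∀ i : ZMod 3, i ≠ i + 1 ∧ i ≠ i + 2 ∧ i + 1 ≠ i + 2 ∧ Constr_R i (i + 1) (i + 2) ∧
    Constr_R i (i + 1) i := by decide
  obtain ⟨k1, k2, k3, k4, k5⟩ := k (x : ℕ)
  have h : x ≠ y := by rintro rfl; exact k1 e
  have := card_le_card (s := (Constr_C n (x : ℕ)).erase x ∪ Constr_C n ((x : ℕ) + 2))
    (t := univ.filter fun z => ({x, y, z} : Finset (Fin n)) ∈ Constr_E n) fun z hz => by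
      refine mem_filter.2 ⟨mem_univ _, ?_⟩
      rcases mem_union.1 hz with hz | hz
      · have h2 := Constr_in.1 (mem_erase.1 hz).2
        rw [Constr_mem h (mem_erase.1 hz).1.symm (by rintro rfl; exact k1 (h2.symm.trans e)), e, h2]
        exact k5
      · have h2 := Constr_in.1 hz
        rw [Constr_mem h (by rintro rfl; exact k2 h2) (by rintro rfl; exact k3 (e.symm.trans h2)),
          e, h2]
        exact k4
  rw [card_union_of_disjoint ((Constr_dis k2).mono_left (erase_subset _ _)),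
    card_erase_of_mem (Constr_in.2 rfl)] at this
  have := Constr_cls n (x : ℕ)
  have := Constr_cls n ((x : ℕ) + 2)
  omega

theorem con (p : ℝ) (hp : 0 < p) (n : ℕ) (hn : 3 ≤ n) :
    ∃ E : Finset (Finset (Fin n)), (∀ e ∈ E, e.card = 3) ∧
      (∀ S : Finset (Fin n), S.card = 4 → ∃ T ⊆ S, T.card = 3 ∧ T ∉ E) ∧
      (n : ℝ) * ((((n / 3 : ℕ) : ℝ) - 1) * ((n / 3 : ℕ) : ℝ) ^ p +
        2 * ((n / 3 : ℕ) : ℝ) * (2 * ((n / 3 : ℕ) : ℝ) - 1) ^ p) ≤
      ∑ x : Fin n, ∑ y : Fin n,
        (((univ.filter fun z => ({x, y, z} : Finset (Fin n)) ∈ E).card : ℕ) : ℝ) ^ p := by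
  refine ⟨Constr_E n, fun e he => (mem_filter.1 he).2.1, fun S hS => ?_, ?_⟩
  · obtain ⟨a, T, ha, rfl, hT⟩ := card_eq_succ.1 hS
    obtain ⟨x, y, z, h1, h2, h3, rfl⟩ := card_eq_three.1 hT
    simp only [mem_insert, mem_singleton, not_or] at ha
    obtain ⟨a1, a2, a3⟩ := ha
    have k : ∀ i j k l : ZMod 3, ¬ Constr_R i j k ∨ ¬ Constr_R i j l ∨ ¬ Constr_R i k l ∨
      ¬ Constr_R j k l := by decide
    rcases k (a : ℕ) (x : ℕ) (y : ℕ) (z : ℕ) with k | k | k | k
    · exact ⟨{a, x, y}, by simp [insert_subset_iff], card_eq_three.2 ⟨_, _, _, a1, a2, h1, rfl⟩,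
        mt (Constr_mem a1 a2 h1).1 k⟩
    · exact ⟨{a, x, z}, by simp [insert_subset_iff], card_eq_three.2 ⟨_, _, _, a1, a3, h2, rfl⟩,
        mt (Constr_mem a1 a3 h2).1 k⟩
    · exact ⟨{a, y, z}, by simp [insert_subset_iff], card_eq_three.2 ⟨_, _, _, a2, a3, h3, rfl⟩,
        mt (Constr_mem a2 a3 h3).1 k⟩
    · exact ⟨{x, y, z}, subset_insert _ _, hT, mt (Constr_mem h1 h2 h3).1 k⟩
  have m1 : (1 : ℝ) ≤ (n / 3 : ℕ) := by exact_mod_cast (show 1 ≤ n / 3 by omega)
  rw [← nsmul_eq_mul]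
  nth_rw 1 [← card_fin n]
  refine card_nsmul_le_sum univ _ _ fun x _ => ?_
  have k : ∀ i : ZMod 3, i ≠ i + 1 ∧ i ≠ i + 2 ∧ i + 1 ≠ i + 2 ∧ i = i + 2 + 1 := by decide
  obtain ⟨k1, k2, k3, k4⟩ := k (x : ℕ)
  refine le_trans ?_ (sum_le_sum_of_subset_of_nonneg (subset_univ ((Constr_C n (x : ℕ)).erase x ∪
    (Constr_C n ((x : ℕ) + 1) ∪ Constr_C n ((x : ℕ) + 2)))) fun _ _ _ =>
      Real.rpow_nonneg (Nat.cast_nonneg _) _)
  rw [sum_union ((disjoint_union_right.2 ⟨Constr_dis k1, Constr_dis k2⟩).mono_left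
    (erase_subset _ _))]
  refine add_le_add (le_trans ?_ (card_nsmul_le_sum _ _ (((n / 3 : ℕ) : ℝ) ^ p) fun y hy => ?_))
    (le_trans ?_ (card_nsmul_le_sum _ _ ((2 * ((n / 3 : ℕ) : ℝ) - 1) ^ p) fun y hy => ?_))
  · rw [nsmul_eq_mul]
    refine mul_le_mul_of_nonneg_right (sub_le_iff_le_add.2 ?_) (by positivity)
    have := Constr_cls n (x : ℕ)
    rw [← card_erase_add_one (Constr_in.2 rfl : x ∈ _)] at this
    exact_mod_cast this
  · exact Real.rpow_le_rpow (by positivity) (by
      exact_mod_cast Constr_same (mem_erase.1 hy).1.symm (Constr_in.1 (mem_erase.1 hy).2)) hp.le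
  · rw [nsmul_eq_mul, card_union_of_disjoint (Constr_dis k3)]
    refine mul_le_mul_of_nonneg_right ?_ (Real.rpow_nonneg (by linarith) _)
    rw [two_mul, ← Nat.cast_add]
    exact Nat.cast_le.2 (add_le_add (Constr_cls n _) (Constr_cls n _))
  · refine Real.rpow_le_rpow (by linarith) (sub_le_iff_le_add.2 ?_) hp.le
    rcases mem_union.1 hy with hy | hy
    · exact_mod_cast Constr_next (Constr_in.1 hy)
    · have := Constr_next (x := y) (y := x) (k4.trans (by rw [Constr_in.1 hy]))
      simp only [insert_comm y x] at this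
      exact_mod_cast this

end Pool.Agent.Work.MP_f1799f_co.LP
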