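import Mathlib
/-! Polynomial majorants of `x ^ p` on `[0,1]` that touch at `1/3` and `2/3`.

Plan. Put `w x = (x-1/3)^2 (x-2/3)^2`.
* `rolle_chain`: if `F 0, F 1, ...` are successive derivatives on `(0,oo)` and `F k` has `n+1` increasing
  positive zeros then `F (k+n)` has a positive zero (induction on `n`, Rolle between neighbours, `choose`).
* `herm6`: let `g = Q - x^p`. Subtract `w x * (c0 + c1 x)` with `c0 = g 0 / w 0`, `c0 + c1 = g 1 / w 1` (both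
  nonnegative), so the new `g` vanishes at `0, 1` and doubly at `1/3, 2/3`. For `x` not one of these points pick `K`
  with `G t = g t - K t (t-1) w t` vanishing at `x`. Rolle on the five zeros of `G` in `[0,1]` (`G` is continuous at
  `0` because `p > 0`) gives four zeros of `G'` in the gaps, with `1/3` and `2/3` six increasing positive zeros
  (three cases for the position of `x`); so the sixth derivative
  `- p(p-1)(p-2)(p-3)(p-4)(p-5) t^(p-6) - 720 K` vanishes somewhere, hence `K <= 0` and `g x = K x (x-1) w x >= 0`.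
* `herm4`: `Q = H + w * (c0 + c1 x)` with `H` cubic, `c1 = q5`, `c0 = q4 + 2 q5`; `G t = t^p - H t - K w t` vanishes at
  `x, 1/3, 2/3`, `G'` has four increasing positive zeros, the fourth derivative gives
  `24 K = p(p-1)(p-2)(p-3) t^(p-4) <= 0`.
It is convenient to write the `k`-th derivative explicitly by cases on `k` (a list of functions) or through
`Polynomial.derivative^[k]` and `descPochhammer`. -/
namespace Pool.Agent.Work.MP_f1799f_co.LP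

theorem Herm_rolle {f f' : ℝ → ℝ} (hf : ∀ t, 0 < t → HasDerivAt f (f' t) t) {x y : ℝ}
    (h0 : 0 ≤ x) (h : x < y) (hc : ContinuousAt f x) (hx : f x = 0) (hy : f y = 0) :
    ∃ z ∈ Set.Ioo x y, 0 < z ∧ f' z = 0 := by
  obtain ⟨z, hz, e⟩ := exists_hasDerivAt_eq_zero (f := f) (f' := f') h
    (fun t ht => ht.1.eq_or_lt.elim (fun e => e ▸ hc.continuousWithinAt)
      fun e => (hf t (h0.trans_lt e)).continuousAt.continuousWithinAt)
    (hx.trans hy.symm) fun t ht => hf t (h0.trans_lt ht.1)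
  exact ⟨z, hz, h0.trans_lt hz.1, e⟩

theorem rolle_chain (F : ℕ → ℝ → ℝ) (N : ℕ)
    (hF : ∀ k < N, ∀ t, 0 < t → HasDerivAt (F k) (F (k + 1) t) t) :
    ∀ (n k : ℕ) (z : ℕ → ℝ), k + n ≤ N → 0 < z 0 → (∀ i < n, z i < z (i + 1)) →
      (∀ i ≤ n, F k (z i) = 0) → ∃ t, 0 < t ∧ F (k + n) t = 0 := by
  intro n
  induction n with
  | zero => exact fun k z _ h0 _ hz => ⟨z 0, h0, hz 0 le_rfl⟩
  | succ n ih =>
    intro k z hk h0 hm hz
    have hp : ∀ i, i ≤ n + 1 → 0 < z i := fun i => by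
      induction i with
      | zero => exact fun _ => h0
      | succ i ihi => exact fun h => (ihi (by omega)).trans (hm i (by omega))
    have hc : ∀ i, ∃ c, i < n + 1 → c ∈ Set.Ioo (z i) (z (i + 1)) ∧ 0 < c ∧ F (k + 1) c = 0 :=
      fun i => by
        by_cases hi : i < n + 1
        · obtain ⟨c, h⟩ := Herm_rolle (hF k (by omega)) (hp i hi.le).le (hm i hi)
            (hF k (by omega) _ (hp i hi.le)).continuousAt (hz i hi.le) (hz _ hi)
          exact ⟨c, fun _ => h⟩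
        · exact ⟨0, fun h => absurd h hi⟩
    choose c hc using hc
    obtain ⟨t, h1, h2⟩ := ih (k + 1) c (by omega) (hc 0 (by omega)).2.1
      (fun i hi => (hc i (by omega)).1.2.trans (hc (i + 1) (by omega)).1.1)
      fun i hi => (hc i (by omega)).2.2
    exact ⟨t, h1, by rwa [Nat.add_right_comm] at h2⟩

theorem Herm_gap {P : ℝ → Prop} (s : Finset ℝ)
    (h : ∀ x ∈ s, ∀ y ∈ s, x < y → ∃ z ∈ Set.Ioo x y, P z) :
    ∃ t : Finset ℝ, s.card ≤ t.card + 1 ∧ ∀ z ∈ t, P z ∧ z ∉ s := by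
  rcases {z | P z ∧ z ∉ s}.finite_or_infinite with f | f
  · refine ⟨f.toFinset, Finset.card_le_of_interleaved fun x hx y hy hxy hn => ?_,
      fun z hz => f.mem_toFinset.1 hz⟩
    obtain ⟨z, hz, hP⟩ := h x hx y hy hxy
    exact ⟨z, f.mem_toFinset.2 ⟨hP, fun k => hn z k hz⟩, hz⟩
  · obtain ⟨t, h1, h2⟩ := f.exists_subset_card_eq s.card
    exact ⟨t, by omega, fun z hz => h1 hz⟩

theorem Herm_chain (F : ℕ → ℝ → ℝ) (hF : ∀ k t, 0 < t → HasDerivAt (F k) (F (k + 1) t) t) (n : ℕ) :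
    ∀ (k : ℕ) (s : Finset ℝ), n + 1 ≤ s.card → (∀ z ∈ s, 0 < z ∧ F k z = 0) →
      ∃ t, 0 < t ∧ F (n + k) t = 0 := by
  induction n with
  | zero =>
    intro k s h hs
    obtain ⟨t, ht⟩ := Finset.card_pos.1 h
    exact ⟨t, by simpa using hs t ht⟩
  | succ n ih =>
    intro k s h hs
    obtain ⟨t, h1, h2⟩ := Herm_gap s fun x hx y hy hxy => Herm_rolle (hF k) (hs x hx).1.le hxy
      (hF k x (hs x hx).1).continuousAt (hs x hx).2 (hs y hy).2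
    rw [Nat.add_right_comm]
    exact ih (k + 1) t (by omega) fun z hz => (h2 z hz).1

open Polynomial in
theorem Herm_core {p : ℝ} (hp : 0 < p) (R : ℝ[X]) (s : Finset ℝ)
    (hs : ∀ y ∈ s, 0 ≤ y ∧ R.eval y = y ^ p) (ha : 1 / 3 ∈ s) (hb : 2 / 3 ∈ s)
    (a1 : R.derivative.eval (1 / 3) = 3 * p * (1 / 3 : ℝ) ^ p)
    (b1 : R.derivative.eval (2 / 3) = 3 / 2 * p * (2 / 3 : ℝ) ^ p) {n : ℕ} (hn : s.card = n) :
    ∃ t : ℝ, 0 < t ∧ (derivative^[n + 1] R).eval t =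
      (descPochhammer ℝ (n + 1)).eval p * t ^ (p - (n + 1 : ℕ)) := by
  classical
  have hF : ∀ (k : ℕ) (t : ℝ), 0 < t → HasDerivAt
      (fun t : ℝ => (derivative^[k] R).eval t - (descPochhammer ℝ k).eval p * t ^ (p - k))
      ((derivative^[k + 1] R).eval t -
        (descPochhammer ℝ (k + 1)).eval p * t ^ (p - (k + 1 : ℕ))) t := fun k t ht => by
    have h := ((derivative^[k] R).hasDerivAt t).sub
      ((Real.hasDerivAt_rpow_const (p := p - k) (Or.inl ht.ne')).const_mul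
        ((descPochhammer ℝ k).eval p))
    rw [Function.iterate_succ_apply', descPochhammer_succ_eval, Nat.cast_succ, ← sub_sub, mul_assoc]
    exact h
  obtain ⟨t, h1, h2⟩ := Herm_gap s fun x hx y hy hxy => Herm_rolle (hF 0) (hs x hx).1 hxy
    ((Polynomial.continuousAt _).sub (continuousAt_const.mul
      (Real.continuousAt_rpow_const _ _ (Or.inr (by simpa using hp.le)))))
    (by simp [(hs x hx).2]) (by simp [(hs y hy).2])
  refine (Herm_chain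
    (fun k t => (derivative^[k] R).eval t - (descPochhammer ℝ k).eval p * t ^ (p - k)) hF n 1
    (insert (1 / 3) (insert (2 / 3) t)) ?_ fun z hz => ?_).imp fun z hz =>
      ⟨hz.1, sub_eq_zero.1 hz.2⟩
  · rw [Finset.card_insert_of_notMem, Finset.card_insert_of_notMem fun k => (h2 _ k).2 hb]
    · omega
    · rw [Finset.mem_insert, not_or]
      exact ⟨by norm_num, fun k => (h2 _ k).2 ha⟩
  · simp only [Finset.mem_insert] at hz
    rcases hz with rfl | rfl | hz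
    · refine ⟨by norm_num, ?_⟩
      simp only [Function.iterate_one, a1, descPochhammer_one, eval_X, Nat.cast_one]
      rw [Real.rpow_sub_one (by norm_num)]
      ring
    · refine ⟨by norm_num, ?_⟩
      simp only [Function.iterate_one, b1, descPochhammer_one, eval_X, Nat.cast_one]
      rw [Real.rpow_sub_one (by norm_num)]
      ring
    · exact (h2 z hz).1

open Polynomial in
theorem Herm_six {p : ℝ} (hp : 0 < p) (r0 r1 r2 r3 r4 r5 r6 : ℝ) (s : Finset ℝ)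
    (hs : ∀ y ∈ s, 0 ≤ y ∧
      r0 + r1 * y + r2 * y ^ 2 + r3 * y ^ 3 + r4 * y ^ 4 + r5 * y ^ 5 + r6 * y ^ 6 = y ^ p)
    (ha : 1 / 3 ∈ s) (hb : 2 / 3 ∈ s)
    (a1 : r1 + 2 * r2 * (1 / 3) + 3 * r3 * (1 / 3) ^ 2 + 4 * r4 * (1 / 3) ^ 3 +
      5 * r5 * (1 / 3) ^ 4 + 6 * r6 * (1 / 3) ^ 5 = 3 * p * (1 / 3 : ℝ) ^ p)
    (b1 : r1 + 2 * r2 * (2 / 3) + 3 * r3 * (2 / 3) ^ 2 + 4 * r4 * (2 / 3) ^ 3 +
      5 * r5 * (2 / 3) ^ 4 + 6 * r6 * (2 / 3) ^ 5 = 3 / 2 * p * (2 / 3 : ℝ) ^ p) :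
    (s.card = 5 → ∃ u : ℝ, 0 < u ∧
      720 * r6 = p * (p - 1) * ((p - 2) * (p - 3)) * ((p - 4) * (p - 5)) * u) ∧
    (s.card = 3 → r5 = 0 → r6 = 0 → ∃ u : ℝ, 0 < u ∧
      24 * r4 = p * (p - 1) * (p - 2) * (p - 3) * u) := by
  have h := @Herm_core p hp (C r0 + C r1 * X + C r2 * X ^ 2 + C r3 * X ^ 3 + C r4 * X ^ 4 +
    C r5 * X ^ 5 + C r6 * X ^ 6) s (fun y hy => by simpa using hs y hy) ha hb
    (by rw [← a1]; simp; ring) (by rw [← b1]; simp; ring)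
  refine ⟨fun e => ?_, fun e e5 e6 => ?_⟩
  · obtain ⟨t, t0, ht⟩ := h e
    refine ⟨_, Real.rpow_pos_of_pos t0 (p - (5 + 1 : ℕ)), ?_⟩
    generalize t ^ (p - (5 + 1 : ℕ)) = u at ht
    simp [Function.iterate_succ_apply', descPochhammer_succ_eval] at ht
    linear_combination ht
  · obtain ⟨t, t0, ht⟩ := h e
    refine ⟨_, Real.rpow_pos_of_pos t0 (p - (3 + 1 : ℕ)), ?_⟩
    generalize t ^ (p - (3 + 1 : ℕ)) = u at ht
    simp [Function.iterate_succ_apply', descPochhammer_succ_eval, e5, e6] at ht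
    linear_combination ht

theorem herm6 (p q0 q1 q2 q3 q4 q5 : ℝ) (h1 : 1 ≤ p) (h2 : p ≤ 2)
    (a0 : q0 + q1 * (1 / 3) + q2 * (1 / 3) ^ 2 + q3 * (1 / 3) ^ 3 + q4 * (1 / 3) ^ 4 +
      q5 * (1 / 3) ^ 5 = (1 / 3 : ℝ) ^ p)
    (a1 : q1 + 2 * q2 * (1 / 3) + 3 * q3 * (1 / 3) ^ 2 + 4 * q4 * (1 / 3) ^ 3 +
      5 * q5 * (1 / 3) ^ 4 = 3 * p * (1 / 3 : ℝ) ^ p)
    (b0 : q0 + q1 * (2 / 3) + q2 * (2 / 3) ^ 2 + q3 * (2 / 3) ^ 3 + q4 * (2 / 3) ^ 4 +
      q5 * (2 / 3) ^ 5 = (2 / 3 : ℝ) ^ p)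
    (b1 : q1 + 2 * q2 * (2 / 3) + 3 * q3 * (2 / 3) ^ 2 + 4 * q4 * (2 / 3) ^ 3 +
      5 * q5 * (2 / 3) ^ 4 = 3 / 2 * p * (2 / 3 : ℝ) ^ p)
    (e0 : 0 ≤ q0) (e1 : 1 ≤ q0 + q1 + q2 + q3 + q4 + q5) (x : ℝ) (x0 : 0 ≤ x) (x1 : x ≤ 1) :
    x ^ p ≤ q0 + q1 * x + q2 * x ^ 2 + q3 * x ^ 3 + q4 * x ^ 4 + q5 * x ^ 5 := by
  have hp : 0 < p := by linarith
  by_cases k0 : x = 0
  · rw [k0, Real.zero_rpow hp.ne']
    simpa using e0
  by_cases k1 : x = 1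
  · rw [k1, Real.one_rpow]
    simpa using e1
  by_cases ka : x = 1 / 3
  · rw [ka, a0]
  by_cases kb : x = 2 / 3
  · rw [kb, b0]
  obtain ⟨c, hc⟩ : ∃ c, q0 = 4 / 81 * c := ⟨81 / 4 * q0, by ring⟩
  obtain ⟨d, hd⟩ : ∃ d, q0 + q1 + q2 + q3 + q4 + q5 - 1 = 4 / 81 * (c + d) :=
    ⟨81 / 4 * (q0 + q1 + q2 + q3 + q4 + q5 - 1) - c, by ring⟩
  have hw : 0 < ((x - 1 / 3) * (x - 2 / 3)) ^ 2 :=
    sq_pos_of_ne_zero (mul_ne_zero (sub_ne_zero.2 ka) (sub_ne_zero.2 kb))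
  have hx : 0 < x * (1 - x) := mul_pos (x0.lt_of_ne' k0) (sub_pos.2 (x1.lt_of_ne k1))
  obtain ⟨K, hK⟩ : ∃ K, q0 + q1 * x + q2 * x ^ 2 + q3 * x ^ 3 + q4 * x ^ 4 + q5 * x ^ 5 - x ^ p -
      (c + d * x) * ((x - 1 / 3) * (x - 2 / 3)) ^ 2 =
        K * (x * (1 - x) * ((x - 1 / 3) * (x - 2 / 3)) ^ 2) :=
    ⟨_, (div_mul_cancel₀ _ (mul_pos hx hw).ne').symm⟩
  refine Exists.elim ((Herm_six hp (q0 - 4 / 81 * c) (q1 + 4 / 9 * c - 4 / 81 * d - 4 / 81 * K)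
    (q2 - 13 / 9 * c + 4 / 9 * d + 40 / 81 * K) (q3 + 2 * c - 13 / 9 * d - 17 / 9 * K)
    (q4 - c + 2 * d + 31 / 9 * K) (q5 - d - 3 * K) K {x, 0, 1, 1 / 3, 2 / 3} (fun y hy => ?_)
    (by simp) (by simp) (by linear_combination a1) (by linear_combination b1)).1 ?_)
    fun u ⟨u0, hu⟩ => ?_
  · simp only [Finset.mem_insert, Finset.mem_singleton] at hy
    rcases hy with rfl | rfl | rfl | rfl | rfl
    · exact ⟨x0, by linear_combination hK⟩
    · exact ⟨le_rfl, by rw [Real.zero_rpow hp.ne']; linear_combination hc⟩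
    · exact ⟨zero_le_one, by rw [Real.one_rpow]; linear_combination hd⟩
    · exact ⟨by norm_num, by linear_combination a0⟩
    · exact ⟨by norm_num, by linear_combination b0⟩
  · rw [Finset.card_insert_of_notMem (by simpa only [Finset.mem_insert, Finset.mem_singleton,
      not_or] using ⟨k0, k1, ka, kb⟩), Finset.card_insert_of_notMem (by norm_num),
      Finset.card_insert_of_notMem (by norm_num), Finset.card_pair (by norm_num)]
  · have s1 : 0 ≤ p * (p - 1) * ((p - 2) * (p - 3)) * ((p - 4) * (p - 5)) * u :=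
      mul_nonneg (mul_nonneg (mul_nonneg (mul_nonneg hp.le (by linarith))
        (mul_nonneg_of_nonpos_of_nonpos (by linarith) (by linarith)))
        (mul_nonneg_of_nonpos_of_nonpos (by linarith) (by linarith))) u0.le
    have s2 : 0 ≤ K * (x * (1 - x) * ((x - 1 / 3) * (x - 2 / 3)) ^ 2) :=
      mul_nonneg (by linarith) (mul_pos hx hw).le
    have s3 : 0 ≤ (c + d * x) * ((x - 1 / 3) * (x - 2 / 3)) ^ 2 :=
      mul_nonneg (by nlinarith) hw.le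
    linarith

theorem herm4 (p q0 q1 q2 q3 q4 q5 : ℝ) (h1 : 2 ≤ p) (h2 : p ≤ 3)
    (a0 : q0 + q1 * (1 / 3) + q2 * (1 / 3) ^ 2 + q3 * (1 / 3) ^ 3 + q4 * (1 / 3) ^ 4 +
      q5 * (1 / 3) ^ 5 = (1 / 3 : ℝ) ^ p)
    (a1 : q1 + 2 * q2 * (1 / 3) + 3 * q3 * (1 / 3) ^ 2 + 4 * q4 * (1 / 3) ^ 3 +
      5 * q5 * (1 / 3) ^ 4 = 3 * p * (1 / 3 : ℝ) ^ p)
    (b0 : q0 + q1 * (2 / 3) + q2 * (2 / 3) ^ 2 + q3 * (2 / 3) ^ 3 + q4 * (2 / 3) ^ 4 +
      q5 * (2 / 3) ^ 5 = (2 / 3 : ℝ) ^ p)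
    (b1 : q1 + 2 * q2 * (2 / 3) + 3 * q3 * (2 / 3) ^ 2 + 4 * q4 * (2 / 3) ^ 3 +
      5 * q5 * (2 / 3) ^ 4 = 3 / 2 * p * (2 / 3 : ℝ) ^ p)
    (e0 : 0 ≤ q4 + 2 * q5) (e1 : 0 ≤ q4 + 3 * q5) (x : ℝ) (x0 : 0 ≤ x) (x1 : x ≤ 1) :
    x ^ p ≤ q0 + q1 * x + q2 * x ^ 2 + q3 * x ^ 3 + q4 * x ^ 4 + q5 * x ^ 5 := by
  have hp : 0 < p := by linarith
  by_cases ka : x = 1 / 3
  · rw [ka, a0]
  by_cases kb : x = 2 / 3
  · rw [kb, b0]
  have hw : 0 < ((x - 1 / 3) * (x - 2 / 3)) ^ 2 :=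
    sq_pos_of_ne_zero (mul_ne_zero (sub_ne_zero.2 ka) (sub_ne_zero.2 kb))
  obtain ⟨c, hc⟩ : ∃ c, q0 + q1 * x + q2 * x ^ 2 + q3 * x ^ 3 + q4 * x ^ 4 + q5 * x ^ 5 - x ^ p -
      q5 * x * ((x - 1 / 3) * (x - 2 / 3)) ^ 2 = c * ((x - 1 / 3) * (x - 2 / 3)) ^ 2 :=
    ⟨_, (div_mul_cancel₀ _ hw.ne').symm⟩
  refine Exists.elim ((Herm_six hp (q0 - 4 / 81 * c) (q1 + 4 / 9 * c - 4 / 81 * q5)
    (q2 - 13 / 9 * c + 4 / 9 * q5) (q3 + 2 * c - 13 / 9 * q5) (q4 - c + 2 * q5) 0 0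
    {x, 1 / 3, 2 / 3} (fun y hy => ?_) (by simp) (by simp) (by linear_combination a1)
    (by linear_combination b1)).2 ?_ rfl rfl) fun u ⟨u0, hu⟩ => ?_
  · simp only [Finset.mem_insert, Finset.mem_singleton] at hy
    rcases hy with rfl | rfl | rfl
    · exact ⟨x0, by linear_combination hc⟩
    · exact ⟨by norm_num, by linear_combination a0⟩
    · exact ⟨by norm_num, by linear_combination b0⟩
  · rw [Finset.card_insert_of_notMem (by simpa only [Finset.mem_insert, Finset.mem_singleton,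
      not_or] using ⟨ka, kb⟩), Finset.card_pair (by norm_num)]
  · have s1 : p * (p - 1) * (p - 2) * (p - 3) * u ≤ 0 :=
      mul_nonpos_of_nonpos_of_nonneg (mul_nonpos_of_nonneg_of_nonpos
        (mul_nonneg (mul_nonneg hp.le (by linarith)) (by linarith)) (by linarith)) u0.le
    have s2 : 0 ≤ (c + q5 * x) * ((x - 1 / 3) * (x - 2 / 3)) ^ 2 :=
      mul_nonneg (by nlinarith) hw.le
    linarith

end Pool.Agent.Work.MP_f1799f_co.LP
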