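import Mathlib.Analysis.Complex.ExponentialBounds
import Mathlib.Analysis.SpecialFunctions.Pow.Real
/-! Sign conditions for the coefficients of the majorant, as functions of the exponent. -/
namespace Pool.Agent.Work.MP_f1799f_co.LP
open Finset

noncomputable def TT (x : ℝ) : ℝ := 1 + x + x ^ 2 / 2 + x ^ 3 / 6 + x ^ 4 / 24 + x ^ 5 / 120 +
  x ^ 6 / 720 + x ^ 7 / 5040 + x ^ 8 / 40320 + x ^ 9 / 362880

theorem exp_box {x : ℝ} (h : |x| ≤ 1) :
    TT x - 11 / 36288000 ≤ Real.exp x ∧ Real.exp x ≤ TT x + 11 / 36288000 := by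
  have h1 := Real.exp_bound h (n := 10) (by norm_num)
  have h2 : |x| ^ 10 ≤ 1 := pow_le_one₀ (abs_nonneg x) h
  have e : ∑ m ∈ range 10, x ^ m / (m.factorial : ℝ) = TT x := by
    simp only [sum_range_succ, sum_range_zero, Nat.factorial, TT]; norm_num
  have e2 : ((Nat.succ 10 : ℕ) : ℝ) / (((Nat.factorial 10 : ℕ) : ℝ) * ((10 : ℕ) : ℝ)) =
      11 / 36288000 := by norm_num [Nat.factorial]
  rw [e, e2, abs_le] at h1
  constructor <;> nlinarith [h1.1, h1.2]

theorem pow_box {c x y t : ℝ} (hc : 0 < c) (h1 : x ≤ Real.log c * t) (h2 : Real.log c * t ≤ y)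
    (hx : |x| ≤ 1) (hy : |y| ≤ 1) :
    TT x - 11 / 36288000 ≤ c ^ t ∧ c ^ t ≤ TT y + 11 / 36288000 := by
  rw [Real.rpow_def_of_pos hc]
  exact ⟨(exp_box hx).1.trans (Real.exp_le_exp.2 h1), (Real.exp_le_exp.2 h2).trans (exp_box hy).2⟩

theorem lin_box {a b l u w : ℝ} (h1 : 0 ≤ a + b * l) (h2 : 0 ≤ a + b * u) (hl : l ≤ w)
    (hu : w ≤ u) : 0 ≤ a + b * w := by
  rcases le_total 0 b with h | h <;> nlinarith

noncomputable def bA (p w : ℝ) : ℝ :=
  (875043 / 9756414002) + (169369866 / 1780545555365) * p +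
    ((-875043 / 9756414002) + (26528877 / 1780545555365) * p) * w
noncomputable def bE (p w : ℝ) : ℝ :=
  (-221304609 / 975641400200) + (-60610711887 / 445136388841250) * p +
    ((221304609 / 975641400200) + (-338027323257 / 7122182221460000) * p) * w
noncomputable def bD (p w : ℝ) : ℝ :=
  (105790401 / 975641400200) + (7442984241 / 178054555536500) * p +
    ((-105790401 / 975641400200) + (467749431 / 14244364442920) * p) * w
noncomputable def q0 (p w : ℝ) : ℝ :=
  (-25423854268 / 4878207001) + (-1678176870080 / 356109111073) * p +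
    ((30302061269 / 4878207001) + (-439506221519 / 356109111073) * p) * w
noncomputable def qs (p w : ℝ) : ℝ :=
  (23312099129 / 4878207001) + (653281071538 / 356109111073) * p +
    ((-18433892128 / 4878207001) + (702547339480 / 356109111073) * p) * w
noncomputable def r2 (p w : ℝ) : ℝ :=
  (-119698281846 / 4878207001) + (-5138243622207 / 356109111073) * p +
    ((119698281846 / 4878207001) + (-3377582973063 / 712218222146) * p) * w
noncomputable def r3 (p w : ℝ) : ℝ :=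
  (-21848451489 / 4878207001) + (-1193477299812 / 356109111073) * p +
    ((21848451489 / 4878207001) + (-391670747973 / 712218222146) * p) * w
noncomputable def b0 (p w : ℝ) : ℝ :=
  (16200859838 / 4878207001) + (762399982496 / 1780545555365) * p +
    ((-11322652837 / 4878207001) + (1933907040493 / 3561091110730) * p) * w

theorem r1_bA {t w : ℝ} (h0 : (-4 / 5) ≤ t) (h1 : t ≤ (0))
    (wl : 4 * (TT ((433217 / 625000) * t) - 11 / 36288000) ≤ w)
    (wu : w ≤ 4 * (TT ((6931471 / 10000000) * t) + 11 / 36288000)) : 0 ≤ bA (2 + t) w := by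
  have k := fun i j : ℕ => mul_nonneg (pow_nonneg (sub_nonneg.2 h0) i)
    (pow_nonneg (sub_nonneg.2 h1) j)
  have := lin_box (a := (875043 / 9756414002) + (169369866 / 1780545555365) * (2 + t))
    (b := (-875043 / 9756414002) + (26528877 / 1780545555365) * (2 + t)) ?_ ?_ wl wu
  · unfold bA; linarith
  all_goals
    unfold TT
    linarith [k 0 10, k 1 9, k 2 8, k 3 7, k 4 6, k 5 5, k 6 4, k 7 3, k 8 2, k 9 1, k 10 0]

theorem r1_bE {t w : ℝ} (h0 : (-4 / 5) ≤ t) (h1 : t ≤ (0))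
    (wl : 4 * (TT ((433217 / 625000) * t) - 11 / 36288000) ≤ w)
    (wu : w ≤ 4 * (TT ((6931471 / 10000000) * t) + 11 / 36288000)) : 0 ≤ bE (2 + t) w := by
  have k := fun i j : ℕ => mul_nonneg (pow_nonneg (sub_nonneg.2 h0) i)
    (pow_nonneg (sub_nonneg.2 h1) j)
  have := lin_box (a := (-221304609 / 975641400200) + (-60610711887 / 445136388841250) * (2 + t))
    (b := (221304609 / 975641400200) + (-338027323257 / 7122182221460000) * (2 + t)) ?_ ?_ wl wu
  · unfold bE; linarith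
  all_goals
    unfold TT
    linarith [k 0 10, k 1 9, k 2 8, k 3 7, k 4 6, k 5 5, k 6 4, k 7 3, k 8 2, k 9 1, k 10 0]

theorem r1_bD {t w : ℝ} (h0 : (-4 / 5) ≤ t) (h1 : t ≤ (0))
    (wl : 4 * (TT ((433217 / 625000) * t) - 11 / 36288000) ≤ w)
    (wu : w ≤ 4 * (TT ((6931471 / 10000000) * t) + 11 / 36288000)) : 0 ≤ bD (2 + t) w := by
  have k := fun i j : ℕ => mul_nonneg (pow_nonneg (sub_nonneg.2 h0) i)
    (pow_nonneg (sub_nonneg.2 h1) j)
  have := lin_box (a := (105790401 / 975641400200) + (7442984241 / 178054555536500) * (2 + t))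
    (b := (-105790401 / 975641400200) + (467749431 / 14244364442920) * (2 + t)) ?_ ?_ wl wu
  · unfold bD; linarith
  all_goals
    unfold TT
    linarith [k 0 10, k 1 9, k 2 8, k 3 7, k 4 6, k 5 5, k 6 4, k 7 3, k 8 2, k 9 1, k 10 0]

theorem r1_q0 {t w : ℝ} (h0 : (-4 / 5) ≤ t) (h1 : t ≤ (0))
    (wl : 4 * (TT ((433217 / 625000) * t) - 11 / 36288000) ≤ w)
    (wu : w ≤ 4 * (TT ((6931471 / 10000000) * t) + 11 / 36288000)) : 0 ≤ q0 (2 + t) w := by
  have k := fun i j : ℕ => mul_nonneg (pow_nonneg (sub_nonneg.2 h0) i)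
    (pow_nonneg (sub_nonneg.2 h1) j)
  have := lin_box (a := (-25423854268 / 4878207001) + (-1678176870080 / 356109111073) * (2 + t))
    (b := (30302061269 / 4878207001) + (-439506221519 / 356109111073) * (2 + t)) ?_ ?_ wl wu
  · unfold q0; linarith
  all_goals
    unfold TT
    linarith [k 0 10, k 1 9, k 2 8, k 3 7, k 4 6, k 5 5, k 6 4, k 7 3, k 8 2, k 9 1, k 10 0]

theorem r1_qs {t w z : ℝ} (h0 : (-4 / 5) ≤ t) (h1 : t ≤ (0))
    (wl : 4 * (TT ((433217 / 625000) * t) - 11 / 36288000) ≤ w)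
    (wu : w ≤ 4 * (TT ((6931471 / 10000000) * t) + 11 / 36288000))
    (zu : z ≤ 9 * (TT ((5493061 / 5000000) * t) + 11 / 36288000)) : z ≤ qs (2 + t) w := by
  have k := fun i j : ℕ => mul_nonneg (pow_nonneg (sub_nonneg.2 h0) i)
    (pow_nonneg (sub_nonneg.2 h1) j)
  have := lin_box (a := (23312099129 / 4878207001) + (653281071538 / 356109111073) * (2 + t) -
      9 * (TT ((5493061 / 5000000) * t) + 11 / 36288000))
    (b := (-18433892128 / 4878207001) + (702547339480 / 356109111073) * (2 + t)) ?_ ?_ wl wu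
  · unfold qs; linarith
  all_goals
    unfold TT
    linarith [k 0 10, k 1 9, k 2 8, k 3 7, k 4 6, k 5 5, k 6 4, k 7 3, k 8 2, k 9 1, k 10 0]

theorem r2_bA {t w : ℝ} (h0 : (0) ≤ t) (h1 : t ≤ (1))
    (wl : 4 * (TT ((6931471 / 10000000) * t) - 11 / 36288000) ≤ w)
    (wu : w ≤ 4 * (TT ((433217 / 625000) * t) + 11 / 36288000)) : 0 ≤ bA (2 + t) w := by
  have k := fun i j : ℕ => mul_nonneg (pow_nonneg (sub_nonneg.2 h0) i)
    (pow_nonneg (sub_nonneg.2 h1) j)
  have := lin_box (a := (875043 / 9756414002) + (169369866 / 1780545555365) * (2 + t))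
    (b := (-875043 / 9756414002) + (26528877 / 1780545555365) * (2 + t)) ?_ ?_ wl wu
  · unfold bA; linarith
  all_goals
    unfold TT
    linarith [k 0 10, k 1 9, k 2 8, k 3 7, k 4 6, k 5 5, k 6 4, k 7 3, k 8 2, k 9 1, k 10 0]

theorem r2_bE {t w : ℝ} (h0 : (0) ≤ t) (h1 : t ≤ (1))
    (wl : 4 * (TT ((6931471 / 10000000) * t) - 11 / 36288000) ≤ w)
    (wu : w ≤ 4 * (TT ((433217 / 625000) * t) + 11 / 36288000)) : 0 ≤ bE (2 + t) w := by
  have k := fun i j : ℕ => mul_nonneg (pow_nonneg (sub_nonneg.2 h0) i)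
    (pow_nonneg (sub_nonneg.2 h1) j)
  have := lin_box (a := (-221304609 / 975641400200) + (-60610711887 / 445136388841250) * (2 + t))
    (b := (221304609 / 975641400200) + (-338027323257 / 7122182221460000) * (2 + t)) ?_ ?_ wl wu
  · unfold bE; linarith
  all_goals
    unfold TT
    linarith [k 0 10, k 1 9, k 2 8, k 3 7, k 4 6, k 5 5, k 6 4, k 7 3, k 8 2, k 9 1, k 10 0]

theorem r2_bD {t w : ℝ} (h0 : (0) ≤ t) (h1 : t ≤ (1))
    (wl : 4 * (TT ((6931471 / 10000000) * t) - 11 / 36288000) ≤ w)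
    (wu : w ≤ 4 * (TT ((433217 / 625000) * t) + 11 / 36288000)) : 0 ≤ bD (2 + t) w := by
  have k := fun i j : ℕ => mul_nonneg (pow_nonneg (sub_nonneg.2 h0) i)
    (pow_nonneg (sub_nonneg.2 h1) j)
  have := lin_box (a := (105790401 / 975641400200) + (7442984241 / 178054555536500) * (2 + t))
    (b := (-105790401 / 975641400200) + (467749431 / 14244364442920) * (2 + t)) ?_ ?_ wl wu
  · unfold bD; linarith
  all_goals
    unfold TT
    linarith [k 0 10, k 1 9, k 2 8, k 3 7, k 4 6, k 5 5, k 6 4, k 7 3, k 8 2, k 9 1, k 10 0]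

theorem r2_r2 {t w : ℝ} (h0 : (0) ≤ t) (h1 : t ≤ (1))
    (wl : 4 * (TT ((6931471 / 10000000) * t) - 11 / 36288000) ≤ w)
    (wu : w ≤ 4 * (TT ((433217 / 625000) * t) + 11 / 36288000)) : 0 ≤ r2 (2 + t) w := by
  have k := fun i j : ℕ => mul_nonneg (pow_nonneg (sub_nonneg.2 h0) i)
    (pow_nonneg (sub_nonneg.2 h1) j)
  have := lin_box (a := (-119698281846 / 4878207001) + (-5138243622207 / 356109111073) * (2 + t))
    (b := (119698281846 / 4878207001) + (-3377582973063 / 712218222146) * (2 + t)) ?_ ?_ wl wu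
  · unfold r2; linarith
  all_goals
    unfold TT
    linarith [k 0 10, k 1 9, k 2 8, k 3 7, k 4 6, k 5 5, k 6 4, k 7 3, k 8 2, k 9 1, k 10 0]

theorem r2_r3 {t w : ℝ} (h0 : (0) ≤ t) (h1 : t ≤ (1))
    (wl : 4 * (TT ((6931471 / 10000000) * t) - 11 / 36288000) ≤ w)
    (wu : w ≤ 4 * (TT ((433217 / 625000) * t) + 11 / 36288000)) : 0 ≤ r3 (2 + t) w := by
  have k := fun i j : ℕ => mul_nonneg (pow_nonneg (sub_nonneg.2 h0) i)
    (pow_nonneg (sub_nonneg.2 h1) j)
  have := lin_box (a := (-21848451489 / 4878207001) + (-1193477299812 / 356109111073) * (2 + t))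
    (b := (21848451489 / 4878207001) + (-391670747973 / 712218222146) * (2 + t)) ?_ ?_ wl wu
  · unfold r3; linarith
  all_goals
    unfold TT
    linarith [k 0 10, k 1 9, k 2 8, k 3 7, k 4 6, k 5 5, k 6 4, k 7 3, k 8 2, k 9 1, k 10 0]

theorem r3_bA {t w : ℝ} (h0 : (0) ≤ t) (h1 : t ≤ (2 / 5))
    (wl : 8 * (TT ((6931471 / 10000000) * t) - 11 / 36288000) ≤ w)
    (wu : w ≤ 8 * (TT ((433217 / 625000) * t) + 11 / 36288000)) : 0 ≤ bA (3 + t) w := by
  have k := fun i j : ℕ => mul_nonneg (pow_nonneg (sub_nonneg.2 h0) i)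
    (pow_nonneg (sub_nonneg.2 h1) j)
  have := lin_box (a := (875043 / 9756414002) + (169369866 / 1780545555365) * (3 + t))
    (b := (-875043 / 9756414002) + (26528877 / 1780545555365) * (3 + t)) ?_ ?_ wl wu
  · unfold bA; linarith
  all_goals
    unfold TT
    linarith [k 0 10, k 1 9, k 2 8, k 3 7, k 4 6, k 5 5, k 6 4, k 7 3, k 8 2, k 9 1, k 10 0]

theorem r3_bE {t w : ℝ} (h0 : (0) ≤ t) (h1 : t ≤ (2 / 5))
    (wl : 8 * (TT ((6931471 / 10000000) * t) - 11 / 36288000) ≤ w)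
    (wu : w ≤ 8 * (TT ((433217 / 625000) * t) + 11 / 36288000)) : 0 ≤ bE (3 + t) w := by
  have k := fun i j : ℕ => mul_nonneg (pow_nonneg (sub_nonneg.2 h0) i)
    (pow_nonneg (sub_nonneg.2 h1) j)
  have := lin_box (a := (-221304609 / 975641400200) + (-60610711887 / 445136388841250) * (3 + t))
    (b := (221304609 / 975641400200) + (-338027323257 / 7122182221460000) * (3 + t)) ?_ ?_ wl wu
  · unfold bE; linarith
  all_goals
    unfold TT
    linarith [k 0 10, k 1 9, k 2 8, k 3 7, k 4 6, k 5 5, k 6 4, k 7 3, k 8 2, k 9 1, k 10 0]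

theorem r3_bD {t w : ℝ} (h0 : (0) ≤ t) (h1 : t ≤ (2 / 5))
    (wl : 8 * (TT ((6931471 / 10000000) * t) - 11 / 36288000) ≤ w)
    (wu : w ≤ 8 * (TT ((433217 / 625000) * t) + 11 / 36288000)) : 0 ≤ bD (3 + t) w := by
  have k := fun i j : ℕ => mul_nonneg (pow_nonneg (sub_nonneg.2 h0) i)
    (pow_nonneg (sub_nonneg.2 h1) j)
  have := lin_box (a := (105790401 / 975641400200) + (7442984241 / 178054555536500) * (3 + t))
    (b := (-105790401 / 975641400200) + (467749431 / 14244364442920) * (3 + t)) ?_ ?_ wl wu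
  · unfold bD; linarith
  all_goals
    unfold TT
    linarith [k 0 10, k 1 9, k 2 8, k 3 7, k 4 6, k 5 5, k 6 4, k 7 3, k 8 2, k 9 1, k 10 0]

theorem r3_q0 {t w : ℝ} (h0 : (0) ≤ t) (h1 : t ≤ (2 / 5))
    (wl : 8 * (TT ((6931471 / 10000000) * t) - 11 / 36288000) ≤ w)
    (wu : w ≤ 8 * (TT ((433217 / 625000) * t) + 11 / 36288000)) : 0 ≤ q0 (3 + t) w := by
  have k := fun i j : ℕ => mul_nonneg (pow_nonneg (sub_nonneg.2 h0) i)
    (pow_nonneg (sub_nonneg.2 h1) j)
  have := lin_box (a := (-25423854268 / 4878207001) + (-1678176870080 / 356109111073) * (3 + t))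
    (b := (30302061269 / 4878207001) + (-439506221519 / 356109111073) * (3 + t)) ?_ ?_ wl wu
  · unfold q0; linarith
  all_goals
    unfold TT
    linarith [k 0 10, k 1 9, k 2 8, k 3 7, k 4 6, k 5 5, k 6 4, k 7 3, k 8 2, k 9 1, k 10 0]

theorem r3_qs {t w z : ℝ} (h0 : (0) ≤ t) (h1 : t ≤ (2 / 5))
    (wl : 8 * (TT ((6931471 / 10000000) * t) - 11 / 36288000) ≤ w)
    (wu : w ≤ 8 * (TT ((433217 / 625000) * t) + 11 / 36288000))
    (zu : z ≤ 27 * (TT ((10986123 / 10000000) * t) + 11 / 36288000)) : z ≤ qs (3 + t) w := by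
  have k := fun i j : ℕ => mul_nonneg (pow_nonneg (sub_nonneg.2 h0) i)
    (pow_nonneg (sub_nonneg.2 h1) j)
  have := lin_box (a := (23312099129 / 4878207001) + (653281071538 / 356109111073) * (3 + t) -
      27 * (TT ((10986123 / 10000000) * t) + 11 / 36288000))
    (b := (-18433892128 / 4878207001) + (702547339480 / 356109111073) * (3 + t)) ?_ ?_ wl wu
  · unfold qs; linarith
  all_goals
    unfold TT
    linarith [k 0 10, k 1 9, k 2 8, k 3 7, k 4 6, k 5 5, k 6 4, k 7 3, k 8 2, k 9 1, k 10 0]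

end Pool.Agent.Work.MP_f1799f_co.LP
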