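import Pool.Agent.Work.MP_f1799f_co.Comp
/-! Table of an objective that depends on the codegrees of the 21 pairs of a seven-tuple. -/
namespace Pool.Agent.Work.MP_f1799f_co.LP
noncomputable section

def o15 : Nat := onesD (Nat.pow 2 15)

/-- digits of `x` where bit `j` of the index is set, digits of `y` elsewhere -/
def sel (j x y : Nat) : Nat :=
  Nat.lor (Nat.land x (amask 15 j)) (Nat.land y (Nat.xor o15 (amask 15 j)))

def ft (f : Nat → Nat) (js : List Nat) (s : Nat) : Nat :=
  List.rec (motive := fun _ => Nat → Nat) (fun s => Nat.mul (f s) u15)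
    (fun j _ ih s => sel j (force (Nat.succ s) ih) (ih s)) js s

def bs (ps : List Nat) (r : Nat) : Nat :=
  List.rec (motive := fun _ => Nat) 0
    (fun m _ ih => Nat.add (Nat.land (Nat.shiftRight r m) 1) ih) ps

def otab (f : Nat → Nat) (l : List (List Nat × List Nat)) (r : Nat) : Nat :=
  List.rec (motive := fun _ => Nat) 0
    (fun e _ ih => Nat.add (force (bs e.1 r) (ft f e.2)) ih) l

def opL : List (List Nat × List Nat) := [
  ([0,1,8,14],[13]), ([0,2,6,12],[11]), ([1,2,5,11],[10]), ([8,6,5,16],[4]),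
  ([14,12,11,16],[0]), ([],[13,11,10,4,0]), ([0,3,4,10],[9]), ([1,3,7,13],[12]),
  ([8,4,7,17],[5]), ([14,10,13,17],[1]), ([],[13,9,12,5,1]), ([2,3,9,15],[14]),
  ([6,4,9,18],[6]), ([12,10,15,18],[2]), ([],[11,9,14,6,2]), ([5,7,9,19],[7]),
  ([11,13,15,19],[3]), ([],[10,12,14,7,3]), ([16,17,18,19],[8]), ([],[4,5,6,7,8]),
  ([],[0,1,2,3,8])]

def chkR2 (ut : Nat → Nat) (tu : List (List TE)) (f : Nat → Nat) (kc r : Nat) (os : List Nat) :
    Bool :=
  Bool.rec false
    (Nat.beq (Nat.lor (Nat.land (Nat.add (Nat.add (total ut tu r os) (otab f opL r))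
      (Nat.mul kc u15)) topM) (invM invL r)) (invM invL r))
    (tausOk tu r os)

end
end Pool.Agent.Work.MP_f1799f_co.LP
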