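import Pool.Agent.Work.MP_f1799f_co.Fin
import Pool.Agent.Work.MP_f1799f_co.LP.ObjC
import Pool.Agent.Work.MP_f1799f_co.LP.Iface
/-! Meaning of the codegree objective table and the resulting finite bound. -/
namespace Pool.Agent.Work.MP_f1799f_co.LP
open Finset

variable {V : Type*} {a : V → V → V → Bool}

theorem dig_sel (j x y i : ℕ) : dig (sel j x y) i =
    if i < 2 ^ 15 then (if i.testBit j = true then dig x i else dig y i) else 0 := by
  have e : sel j x y = (x &&& amask 15 j) ||| (y &&& (onesD (2 ^ 15) ^^^ amask 15 j)) := rfl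
  rw [e, dig_lor, dig_land, dig_land, dig_xor, dig_amask, dig_onesD]
  by_cases h : i < 2 ^ 15
  · cases hb : i.testBit j
    · rw [if_neg (by simp), if_pos h, if_pos h, if_neg (by simp), Nat.xor_zero, and_full,
        Nat.and_zero, Nat.zero_or]
    · rw [if_pos ⟨h, rfl⟩, if_pos h, if_pos h, if_pos rfl, Nat.xor_self, and_full, Nat.and_zero,
        Nat.or_zero]
  · rw [if_neg (fun c => h c.1), if_neg h, if_neg h]; simp

def bsum (js : List ℕ) (i : ℕ) : ℕ := (js.map fun j => (i.testBit j).toNat).sum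

theorem bs_eq (ps : List ℕ) (r : ℕ) : bs ps r = bsum ps r := by
  induction ps with
  | nil => rfl
  | cons m ps ih =>
    have e : bs (m :: ps) r = ((r >>> m) &&& 1) + bs ps r := rfl
    rw [e, bit_eq, ih]; simp [bsum]

theorem dig_ft {f : ℕ → ℕ} (hf : ∀ t, f t ≤ 2 ^ 44) (js : List ℕ) : ∀ s i,
    dig (ft f js s) i = if i < 2 ^ 15 then f (s + bsum js i) else 0 := by
  induction js with
  | nil =>
    intro s i
    have e : ft f [] s = pk (fun _ => f s * 1) (2 ^ 15) := by
      rw [← pk_mul, ← unit_eq]; rfl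
    rw [e, dig_pk (fun _ _ => by have := hf s; omega), mul_one]; rfl
  | cons j js ih =>
    intro s i
    have e : ft f (j :: js) s = sel j (force (s + 1) (ft f js)) (ft f js s) := rfl
    have e2 : bsum (j :: js) i = (i.testBit j).toNat + bsum js i := by simp [bsum]
    rw [e, force_eq, dig_sel, ih, ih, e2]
    by_cases h : i < 2 ^ 15
    · simp only [if_pos h]
      cases i.testBit j
      · simp
      · simp [add_assoc]
    · simp only [if_neg h]

theorem bsum_code (hs : Sym3 a) (x : ℕ → V) {T' T : List Tr} {pos : List ℕ}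
    (h : chkG T' T pos = true) :
    bsum pos (code a x T') = (T.map fun t => (ev a x t).toNat).sum := by
  induction T generalizing pos with
  | nil => cases pos with
    | nil => rfl
    | cons p pos => simp [chkG] at h
  | cons t T ih => cases pos with
    | nil => simp [chkG] at h
    | cons p pos =>
      simp only [chkG, Bool.and_eq_true, decide_eq_true_eq] at h
      have e : bsum (p :: pos) (code a x T') =
        ((code a x T').testBit p).toNat + bsum pos (code a x T') := by simp [bsum]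
      rw [e, ih h.2, testBit_code, List.map_cons, List.sum_cons, ev_same3 hs x h.1.2]
      simp [h.1.1]

/-- number of entries of `l` adjacent to the pair -/
def cn (a : V → V → V → Bool) (p q : V) (l : List V) : ℕ := (l.map fun z => (a p q z).toNat).sum

abbrev OE : Type := ℕ × ℕ × List ℕ × List ℕ

def chkO : List OE → List (List ℕ × List ℕ) → Bool
  | [], [] => true
  | e :: E, o :: l => chkG T20 (e.2.2.1.map fun c => (e.1, e.2.1, c)) o.1 &&
      chkG TU (e.2.2.2.map fun c => (e.1, e.2.1, c)) o.2 && chkO E l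
  | _, _ => false

theorem otab_sem (hs : Sym3 a) (y : ℕ → V) {f : ℕ → ℕ} (hf : ∀ t, f t ≤ 2 ^ 44) :
    ∀ (E : List OE) (l : List (List ℕ × List ℕ)), E.length ≤ 21 → chkO E l = true →
      (∀ i, dig (otab f l (code a y T20)) i ≤ E.length * 2 ^ 44) ∧
      dig (otab f l (code a y T20)) (code a y TU) =
        (E.map fun e => f (cn a (y e.1) (y e.2.1) ((e.2.2.1 ++ e.2.2.2).map y))).sum := by
  intro E
  induction E with
  | nil =>
    intro l _ h
    cases l with
    | nil => exact ⟨fun i => (dig_zero i).le, dig_zero _⟩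
    | cons o l => simp [chkO] at h
  | cons e E ih =>
    intro l hl h
    cases l with
    | nil => simp [chkO] at h
    | cons o l =>
      simp only [chkO, Bool.and_eq_true] at h
      simp only [List.length_cons] at hl ⊢
      obtain ⟨i1, i2⟩ := ih l (by omega) h.2
      have e1 : otab f (o :: l) (code a y T20) =
        force (bs o.1 (code a y T20)) (ft f o.2) + otab f l (code a y T20) := rfl
      have b : ∀ s i, dig (ft f o.2 s) i ≤ 2 ^ 44 := fun s i => by
        rw [dig_ft hf]; split_ifs; exacts [hf _, Nat.zero_le _]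
      rw [e1, force_eq]
      have ad := dig_add (x := ft f o.2 (bs o.1 (code a y T20))) (y := otab f l (code a y T20))
        (fun j => by have := i1 j; have := b (bs o.1 (code a y T20)) j; omega)
      refine ⟨fun i => ?_, ?_⟩
      · rw [ad]; have := i1 i; have := b (bs o.1 (code a y T20)) i; omega
      · rw [ad, i2, dig_ft hf, if_pos (code_lt' y TU (n := 15) rfl), bs_eq, bsum_code hs y h.1.1,
          bsum_code hs y h.1.2]
        simp [cn, ev, Function.comp_def]

def oeL : List OE := [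
  (0,1,[2,3,4,5],[6]), (0,2,[1,3,4,5],[6]), (0,3,[1,2,4,5],[6]), (0,4,[1,2,3,5],[6]),
  (0,5,[1,2,3,4],[6]), (0,6,[],[1,2,3,4,5]), (1,2,[0,3,4,5],[6]), (1,3,[0,2,4,5],[6]),
  (1,4,[0,2,3,5],[6]), (1,5,[0,2,3,4],[6]), (1,6,[],[0,2,3,4,5]), (2,3,[0,1,4,5],[6]),
  (2,4,[0,1,3,5],[6]), (2,5,[0,1,3,4],[6]), (2,6,[],[0,1,3,4,5]), (3,4,[0,1,2,5],[6]),
  (3,5,[0,1,2,4],[6]), (3,6,[],[0,1,2,4,5]), (4,5,[0,1,2,3],[6]), (4,6,[],[0,1,2,3,5]),
  (5,6,[],[0,1,2,3,4])]

def Obj (a : V → V → V → Bool) (f : ℕ → ℕ) (l : List V) : ℤ :=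
  sumPicks l fun p r => sumPicks r fun q r' => (f (cn a p q r') : ℤ)

theorem Obj_perm (f : ℕ → ℕ) {l l' : List V} (p : l.Perm l') : Obj a f l = Obj a f l' :=
  sumPicks_perm p _ fun _ _ _ q => sumPicks_perm q _ fun _ _ _ t => by
    unfold cn; rw [(t.map _).sum_eq]

theorem Obj_eval (hs : Sym3 a) (f : ℕ → ℕ) (y : ℕ → V) :
    Obj a f [y 0, y 1, y 2, y 3, y 4, y 5, y 6] = 2 * (((oeL.map fun e =>
      f (cn a (y e.1) (y e.2.1) ((e.2.2.1 ++ e.2.2.2).map y))).sum : ℕ) : ℤ) := by
  have c : ∀ p q l, cn a p q l = cn a q p l := fun p q l => by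
    unfold cn; simp only [hs.1 p q]
  simp only [Obj, sumPicks, oeL, List.map_cons, List.map_nil, List.sum_cons, List.sum_nil,
    List.cons_append, List.nil_append]
  push_cast
  rw [c (y 1) (y 0), c (y 2) (y 0), c (y 3) (y 0), c (y 4) (y 0), c (y 5) (y 0), c (y 6) (y 0),
    c (y 2) (y 1), c (y 3) (y 1), c (y 4) (y 1), c (y 5) (y 1), c (y 6) (y 1), c (y 3) (y 2),
    c (y 4) (y 2), c (y 5) (y 2), c (y 6) (y 2), c (y 4) (y 3), c (y 5) (y 3), c (y 6) (y 3),
    c (y 5) (y 4), c (y 6) (y 4), c (y 6) (y 5)]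
  ring

variable {vc : ℕ → List ℕ} {vb : ℕ → ℕ} {gc : List ℕ} {b3 cmax : ℕ} {p5 : List TE}
  {wd : ℕ → ℕ → ℕ × List (ℕ × List ℕ)} {rowf : ℕ → ℕ}

theorem chkR2_sem (h : DOk vc vb gc b3 cmax 0 p5 wd rowf) (hs : Sym3 a) (hK : K4f a)
    (y : ℕ → V) {tu : List (List TE)} (htu : chkTU prs tu = true) {f : ℕ → ℕ}
    (hf : ∀ t, f t ≤ 2 ^ 44) {cb kc : ℕ}
    (hkc : kc + (cb + 105 * (cmax + 6 * (gc.length * 4 ^ b3))) + 1 = 2 ^ 55) {os : List ℕ}
    (hc : chkR2 (utab (fun t e => wcols vc (wd t e).2) (fun t e => (wd t e).1) rowf 0) tu f kc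
      (code a y T20) os = true) :
    Phi (G5 a vc vb) (Q3 a gc b3) (Bt a) ((0 : ℕ) : ℤ) [y 0, y 1, y 2, y 3, y 4, y 5, y 6] +
      4 * Obj a f [y 0, y 1, y 2, y 3, y 4, y 5, y 6] ≤ 8 * cb := by
  unfold chkR2 at hc
  cases h1 : tausOk tu (code a y T20) os
  · rw [h1] at hc; cases hc
  rw [h1] at hc
  obtain ⟨i1, i2⟩ := total_sem h hs y prs tu os (by decide) htu h1
  obtain ⟨j1, j2⟩ := otab_sem hs y hf oeL opL (by decide) (by decide +kernel)
  have h2 := congrArg (fun z => dig z (code a y TU)) (Nat.eq_of_beq_eq_true hc)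
  generalize total (utab (fun t e => wcols vc (wd t e).2) (fun t e => (wd t e).1) rowf 0) tu
    (code a y T20) os = X at *
  rw [Obj_eval hs, ← j2]
  generalize otab f opL (code a y T20) = Y at *
  have e1 : topM = pk (fun _ => 2 ^ 55 * 1) (2 ^ 15) := by
    rw [← pk_mul, ← unit_eq, mul_comm, ← Nat.shiftLeft_eq]; rfl
  have e2 : Nat.mul kc u15 = pk (fun _ => kc * 1) (2 ^ 15) := by
    rw [← pk_mul, ← unit_eq]; rfl
  have hL : code a y TU < 2 ^ 15 := code_lt' y TU rfl
  have l15 : prs.length = 15 := rfl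
  have l21 : oeL.length = 21 := rfl
  rw [l15] at i1 i2
  rw [l21] at j1
  clear j2
  have d1 : ∀ j, dig (Nat.mul kc u15) j = if j < 2 ^ 15 then kc * 1 else 0 := fun j => by
    rw [e2, dig_pk (fun _ _ => by omega)]
  have ad := dig_add (x := X) (y := Y) (fun j => by have := i1 j; have := j1 j; omega)
  have h3 : dig (((X + Y + Nat.mul kc u15) &&& topM) ||| invM invL (code a y T20))
    (code a y TU) = dig (invM invL (code a y T20)) (code a y TU) := h2
  rw [dig_lor, invM_zero hs hK y (by decide +kernel), Nat.or_zero, dig_land, e1,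
    dig_pk (fun _ _ => by norm_num), if_pos hL,
    dig_add (fun j => by have := i1 j; have := j1 j; rw [d1, ad]; split_ifs <;> omega), d1, ad,
    if_pos hL, mul_one, mul_one] at h3
  have h4 : dig X (code a y TU) + dig Y (code a y TU) + kc < 2 ^ 55 := by
    have h5 := congrArg (fun z => Nat.testBit z 55) h3
    simp only [Nat.testBit_and, Nat.testBit_two_pow_self, Bool.and_true, Nat.zero_testBit] at h5
    have h6 := i1 (code a y TU)
    have h7 := j1 (code a y TU)
    rw [Nat.testBit_eq_decide_div_mod_eq] at h5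
    simp only [decide_eq_false_iff_not] at h5
    omega
  rw [Phi_eval _ (inv_cert vc vb gc b3 hs h.hg)]
  simp only [prs, List.map_cons, List.map_nil, List.sum_cons, List.sum_nil] at i2
  have h7 : dig X (code a y TU) + dig Y (code a y TU) ≤
    cb + 105 * (cmax + 6 * (gc.length * 4 ^ b3)) := by omega
  have h8 : (dig X (code a y TU) : ℤ) + dig Y (code a y TU) ≤
      cb + 105 * (cmax + ((6 * (gc.length * 4 ^ b3) : ℕ) : ℤ)) := by
    exact_mod_cast h7
  push_cast at *
  linarith

def bb (f : ℕ → ℕ) (D n : ℤ) : ℕ → ℕ → ℤ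
  | 0, s => f s
  | k + 1, s => D * bb f D n k (s + 1) + (n - D) * bb f D n k s

theorem SN_cn [Fintype V] (f : ℕ → ℕ) (p q : V) (k : ℕ) : ∀ s,
    SN k (fun r => (f (s + cn a p q r) : ℤ)) =
      bb f ((univ.filter fun z => a p q z = true).card : ℕ) (Fintype.card V) k s := by
  induction k with
  | zero => intro s; rfl
  | succ k ih =>
    intro s
    have e : ∀ v, SN k (fun l => (f (s + cn a p q (v :: l)) : ℤ)) = if a p q v = true then
        bb f ((univ.filter fun z => a p q z = true).card : ℕ) (Fintype.card V) k (s + 1) else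
        bb f ((univ.filter fun z => a p q z = true).card : ℕ) (Fintype.card V) k s := by
      intro v
      have c : ∀ l, cn a p q (v :: l) = (a p q v).toNat + cn a p q l := fun l => by simp [cn]
      simp only [c]
      cases a p q v
      · simpa using ih s
      · simpa [add_assoc] using ih (s + 1)
    have c := card_filter_add_card_filter_not (s := (univ : Finset V)) (fun z => a p q z = true)
    show ∑ v, SN k (fun l => (f (s + cn a p q (v :: l)) : ℤ)) = _
    simp only [e]
    rw [sum_ite, sum_const, sum_const, bb, nsmul_eq_mul, nsmul_eq_mul, ← card_univ, ← c]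
    push_cast; ring

theorem bb_five (f : ℕ → ℕ) (D n : ℤ) : bb f D n 5 0 = bern (fun t => f t) D n := by
  simp only [bb, bern, sum_range_succ, sum_range_zero, Nat.choose]
  push_cast; ring

theorem SN_Obj [Fintype V] (f : ℕ → ℕ) : SN 7 (Obj a f) = 42 * ∑ p, ∑ q,
    bern (fun t => f t) ((univ.filter fun z => a p q z = true).card : ℕ) (Fintype.card V) := by
  have := SN_picks 6 (fun p r => sumPicks r fun q r' => (f (cn a p q r') : ℤ))
  have e : ∀ p q, SN 5 (fun r => (f (cn a p q r) : ℤ)) = bern (fun t => f t)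
      ((univ.filter fun z => a p q z = true).card : ℕ) (Fintype.card V) := fun p q => by
    rw [← bb_five, ← SN_cn]; simp only [zero_add]
  simp only [SN_picks 5, e, ← mul_sum] at this
  refine this.trans ?_
  push_cast; ring

theorem finite_bound2 (h : DOk vc vb gc b3 cmax 0 p5 wd rowf) {tu : List (List TE)}
    (htu : chkTU prs tu = true) {f : ℕ → ℕ} (hf : ∀ t, f t ≤ 2 ^ 44)
    {cb kc : ℕ} (hkc : kc + (cb + 105 * (cmax + 6 * (gc.length * 4 ^ b3))) + 1 = 2 ^ 55)
    {cl : List (List (ℕ × List ℕ))} (hcl : ∀ c ∈ cl, ∀ e ∈ c,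
      chkR2 (utab (fun t e => wcols vc (wd t e).2) (fun t e => (wd t e).1) rowf 0) tu f kc
        e.1 e.2 = true)
    {tc : List (List (List ℕ × List ℕ))} {c5 : ℕ} {c6 : List (ℕ × ℕ)} (h1 : chkTC tc = true)
    (h2 : chkP p5 = true) (h3 : chk5 p5 c5 c6 = true) (h4 : ∀ e ∈ c6, chk6 tc (bmap cl) e = true)
    {m : ℕ → ℤ} {T K : ℤ} (hK0 : 0 < K) (hm : ∀ t < 6, (f t : ℤ) = 243 * K * m t)
    (hT : (cb : ℤ) = 7 * K * T) : CertStmt m T := by
  intro n E e3 e4
  have hs := adj_sym E
  have hK := adj_K4f e3 e4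
  have hI := inv_cert vc vb gc b3 hs h.hg
  have up := SN_mono 7 _ (fun _ => 8 * (cb : ℤ)) (cover hs hK (fun l =>
    Phi (G5 (adj E) vc vb) (Q3 (adj E) gc b3) (Bt (adj E)) ((0 : ℕ) : ℤ) l +
      4 * Obj (adj E) f l ≤ 8 * cb)
      (fun l l' p hl => by rw [← Phi_perm _ hI p, ← Obj_perm f p]; exact hl) h1 h2 h3 h4
      (fun y hy => by
        obtain ⟨c, hc, e, he, e1⟩ := bmap_spec hy
        have := hcl c hc e he
        rw [e1] at this
        exact chkR2_sem h hs hK y htu hf hkc this))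
  have lo := Phi_lower (B := Bt (adj E)) ((0 : ℕ) : ℤ) (G5_nonneg (adj E) vc vb)
    (Q3_nonneg (adj E) gc b3)
  rw [SN_add, SN_mul, SN_const, SN_Obj, Fintype.card_fin] at up
  have e1 : ∀ D N : ℤ, bern (fun t => (f t : ℤ)) D N = 243 * K * bern m D N := fun D N => by
    unfold bern
    rw [mul_sum]
    exact sum_congr rfl fun t ht => by beta_reduce; rw [hm t (mem_range.mp ht)]; ring
  simp only [e1, ← mul_sum, adj, decide_eq_true_eq] at up
  rw [hT] at up
  refine le_of_mul_le_mul_left ?_ (show 0 < 56 * K by positivity)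
  simp only [Nat.cast_zero, mul_zero, zero_mul] at lo up
  linarith

theorem look_ZS (s : ℕ) : ∀ l : List (ℕ × ℕ × List ℕ), (∀ e ∈ l, ZS e.2.1 e.2.2) →
    ZS (List.rec (motive := fun _ => ℕ × List ℕ) (0, []) (fun e _ ih =>
      Bool.rec (motive := fun _ => ℕ × List ℕ) ih e.2 (Nat.beq e.1 s)) l).1
    (List.rec (motive := fun _ => ℕ × List ℕ) (0, []) (fun e _ ih =>
      Bool.rec (motive := fun _ => ℕ × List ℕ) ih e.2 (Nat.beq e.1 s)) l).2 := by
  intro l
  induction l with
  | nil => intro _; exact ⟨Nat.zero_le _, fun c hc => (nomatch hc), fun i _ => rfl⟩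
  | cons e l ih =>
    intro h
    dsimp only
    cases Nat.beq e.1 s
    · exact ih fun e he => h e (List.mem_cons_of_mem _ he)
    · exact h e List.mem_cons_self

theorem nth_le {l : List ℕ} {D : ℕ} (h : allL l (fun x => Nat.ble x D) = true) :
    ∀ t, nth l 0 t ≤ D := by
  have h' := allL_spec h
  clear h
  induction l with
  | nil => intro t; exact Nat.zero_le _
  | cons b l ih =>
    intro t
    cases t with
    | zero => exact Nat.le_of_ble_eq_true (h' b List.mem_cons_self)
    | succ t => exact ih (fun x hx => h' x (List.mem_cons_of_mem _ hx)) t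

end Pool.Agent.Work.MP_f1799f_co.LP
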